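import Mathlib

set_option autoImplicit false

namespace Pool.Agent.H731R3.GA

open MvPolynomial Filter Topology

lemma countable_of_codiscrete {s : Set ℂ} (hs : sᶜ ∈ codiscrete ℂ) : s.Countable := by
  rw [compl_mem_codiscrete_iff] at hs
  have hd : DiscreteTopology s := hs.2.to_subtype
  exact (Set.countable_coe_iff).1 (TopologicalSpace.separableSpace_iff_countable.1 inferInstance)

lemma entire_zeros (f : ℂ → ℂ) (hf : Differentiable ℂ f) (x : ℂ) (hx : f x ≠ 0) :
    {z | f z = 0}.Countable := by
  apply countable_of_codiscrete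
  have h1 : AnalyticOnNhd ℂ f Set.univ := fun z _ => hf.analyticAt z
  have h2 := h1.preimage_zero_mem_codiscrete hx
  exact h2

lemma eval_one_ne (c : MvPolynomial (Fin 1) ℂ) (hc : c ≠ 0) :
    ∃ m : ℕ, eval ![-(m : ℂ)] c ≠ 0 := by
  by_contra hno
  push Not at hno
  apply hc
  refine MvPolynomial.funext_set (fun _ => Set.range fun m : ℕ => -(m : ℂ)) (fun _ => ?_) ?_
  · apply Set.infinite_range_of_injective
    intro a b hab
    simpa using hab
  · intro x hx
    obtain ⟨m, hm⟩ := hx 0 (Set.mem_univ _)
    have : x = ![-(m : ℂ)] := by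
      funext i
      fin_cases i
      exact hm.symm
    rw [this, hno m, map_zero]

lemma pair_zeros (P : MvPolynomial (Fin 2) ℂ) (hP : P ≠ 0) :
    {z : ℂ | eval ![Complex.Gamma z, z] P = 0}.Countable := by
  set Q := finSuccEquiv ℂ 1 P with hQ
  have hQ0 : Q ≠ 0 := by
    rw [hQ]
    exact (map_ne_zero_iff _ (finSuccEquiv ℂ 1).injective).2 hP
  set d := Q.natDegree with hd
  have hlc : Q.coeff d ≠ 0 := by
    rw [hd]; exact Polynomial.leadingCoeff_ne_zero.2 hQ0
  obtain ⟨m, hm⟩ := eval_one_ne _ hlc
  let g : ℂ → ℂ := fun z => ∑ k ∈ Finset.range (d + 1),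
    eval ![z] (Q.coeff k) * ((Complex.Gamma z)⁻¹) ^ (d - k)
  have hgd : Differentiable ℂ g := by
    apply Differentiable.fun_sum
    intro k _
    apply Differentiable.mul
    · have : (fun z : ℂ => eval ![z] (Q.coeff k)) = fun z =>
          ∑ s ∈ (Q.coeff k).support, (Q.coeff k).coeff s * z ^ (s 0) := by
        funext z
        rw [MvPolynomial.eval_eq']
        refine Finset.sum_congr rfl fun s _ => ?_
        simp
      rw [this]
      apply Differentiable.fun_sum
      intro s _
      exact (differentiable_const _).mul (differentiable_id.pow _)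
    · exact Complex.differentiable_one_div_Gamma.pow _
  have hgm : g (-(m : ℂ)) ≠ 0 := by
    have : g (-(m : ℂ)) = eval ![-(m : ℂ)] (Q.coeff d) := by
      simp only [g]
      rw [Finset.sum_eq_single d]
      · simp
      · intro k hk hkd
        have : k < d := by
          have := Finset.mem_range.1 hk
          omega
        rw [Complex.Gamma_neg_nat_eq_zero, inv_zero, zero_pow (by omega), mul_zero]
      · intro h; simp at h
    rw [this]; exact hm
  have hz := entire_zeros g hgd _ hgm
  have hpole : {z : ℂ | Complex.Gamma z = 0}.Countable := by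
    have : {z : ℂ | Complex.Gamma z = 0} ⊆ Set.range fun m : ℕ => -(m : ℂ) := by
      intro z hz
      obtain ⟨m, hm⟩ := Complex.Gamma_eq_zero_iff z |>.1 hz
      exact ⟨m, hm.symm⟩
    exact (Set.countable_range _).mono this
  refine (hz.union hpole).mono ?_
  intro z hz0
  by_cases hG : Complex.Gamma z = 0
  · exact Or.inr hG
  · left
    show g z = 0
    have h1 : eval ![Complex.Gamma z, z] P =
        Polynomial.eval (Complex.Gamma z) (Polynomial.map (eval ![z]) Q) :=
      MvPolynomial.eval_eq_eval_mv_eval' ![z] (Complex.Gamma z) P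
    have h2 : eval ![Complex.Gamma z, z] P = 0 := hz0
    rw [h1, Polynomial.eval_map, Polynomial.eval₂_eq_sum_range] at h2
    have h3 : g z * (Complex.Gamma z) ^ d = 0 := by
      simp only [g]
      rw [Finset.sum_mul, ← h2]
      refine Finset.sum_congr rfl fun k hk => ?_
      have hk' : k ≤ d := by have := Finset.mem_range.1 hk; omega
      rw [mul_assoc]
      congr 1
      rw [inv_pow, inv_mul_eq_div, div_eq_iff (pow_ne_zero _ hG), ← pow_add]
      congr 1
      omega
    rcases mul_eq_zero.1 h3 with h4 | h4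
    · exact h4
    · exact absurd h4 (pow_ne_zero _ hG)

/-- the points where `z` and `Γ(z)` are algebraically dependent over a countable field -/
lemma dep_countable (F : Subfield ℂ) (hF : (F : Set ℂ).Countable) :
    {z : ℂ | ¬ AlgebraicIndependent F ![Complex.Gamma z, z]}.Countable := by
  have hFc : Countable F := hF.to_subtype
  have hMc : Countable (MvPolynomial (Fin 2) F) := by
    rw [← Cardinal.mk_le_aleph0_iff]
    refine (MvPolynomial.cardinalMk_le_max).trans ?_
    have h1 : Cardinal.mk F ≤ Cardinal.aleph0 := Cardinal.mk_le_aleph0_iff.2 hFc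
    have h2 : Cardinal.mk (Fin 2) ≤ Cardinal.aleph0 := Cardinal.mk_le_aleph0_iff.2 inferInstance
    exact max_le (max_le h1 h2) le_rfl
  have hsub : {z : ℂ | ¬ AlgebraicIndependent F ![Complex.Gamma z, z]} ⊆
      ⋃ P : {P : MvPolynomial (Fin 2) F // P ≠ 0},
        {z : ℂ | eval ![Complex.Gamma z, z] (MvPolynomial.map (algebraMap F ℂ) P.1) = 0} := by
    intro z hz
    have hz' : ¬ AlgebraicIndependent F ![Complex.Gamma z, z] := hz
    rw [algebraicIndependent_iff] at hz'
    push Not at hz'
    obtain ⟨P, hP, hP0⟩ := hz'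
    refine Set.mem_iUnion.2 ⟨⟨P, hP0⟩, ?_⟩
    show eval ![Complex.Gamma z, z] (MvPolynomial.map (algebraMap F ℂ) P) = 0
    rw [MvPolynomial.eval_map, ← MvPolynomial.aeval_def]
    exact hP
  refine Set.Countable.mono hsub (Set.countable_iUnion fun P => pair_zeros _ ?_)
  intro h
  exact P.2 ((MvPolynomial.map_injective _ (algebraMap F ℂ).injective) (by rw [h, map_zero]))

end Pool.Agent.H731R3.GA
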