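import Pool.Agent.H731R3.GA.Ana

set_option autoImplicit false

namespace Pool.Agent.H731R3.GA

open MvPolynomial

/-- A subfield `F` of `ℂ` is Gamma-closed if it is stable under `Γ` and contains every complex
number `z` such that `z` and `Γ(z)` are algebraically dependent over `F`. -/
def GammaClosed (F : Subfield ℂ) : Prop :=
  (∀ z ∈ F, Complex.Gamma z ∈ F) ∧
    ∀ z : ℂ, ¬ AlgebraicIndependent F ![Complex.Gamma z, z] → z ∈ F

/-- The Gamma-closure of `A`: the intersection of all Gamma-closed subfields containing `A`. -/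
def gammaClosure (A : Set ℂ) : Set ℂ :=
  {w | ∀ F : Subfield ℂ, GammaClosed F → A ⊆ F → w ∈ F}

/-- one step of the countable closure process -/
noncomputable def stp (G : Subfield ℂ) : Subfield ℂ :=
  Subfield.closure ((G : Set ℂ) ∪ (Complex.Gamma '' (G : Set ℂ) ∪
    {z : ℂ | ¬ AlgebraicIndependent G ![Complex.Gamma z, z]}))

lemma closure_countable (s : Set ℂ) (hs : s.Countable) :
    ((Subfield.closure s : Subfield ℂ) : Set ℂ).Countable := by
  have h1 := Subfield.cardinalMk_closure_le_max s
  have h2 : Cardinal.mk s ≤ Cardinal.aleph0 := Cardinal.mk_le_aleph0_iff.2 hs.to_subtype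
  have h3 : Cardinal.mk (Subfield.closure s) ≤ Cardinal.aleph0 := h1.trans (max_le h2 le_rfl)
  have h4 : Countable (Subfield.closure s) := Cardinal.mk_le_aleph0_iff.1 h3
  exact Set.countable_coe_iff.1 h4

lemma stp_countable (G : Subfield ℂ) (hG : (G : Set ℂ).Countable) :
    ((stp G : Subfield ℂ) : Set ℂ).Countable :=
  closure_countable _ (hG.union ((hG.image _).union (dep_countable G hG)))

lemma le_stp (G : Subfield ℂ) : G ≤ stp G := fun _ hx =>
  Subfield.subset_closure (Or.inl hx)

noncomputable def chain (A : Set ℂ) : ℕ → Subfield ℂ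
  | 0 => Subfield.closure A
  | n + 1 => stp (chain A n)

lemma chain_mono (A : Set ℂ) : Monotone (chain A) :=
  monotone_nat_of_le_succ fun n => le_stp (chain A n)

lemma chain_countable (A : Set ℂ) (hA : A.Countable) (n : ℕ) :
    ((chain A n : Subfield ℂ) : Set ℂ).Countable := by
  induction n with
  | zero => exact closure_countable A hA
  | succ n ih => exact stp_countable _ ih

lemma mem_union_iff (A : Set ℂ) (z : ℂ) :
    z ∈ (⨆ n, chain A n : Subfield ℂ) ↔ ∃ n, z ∈ chain A n :=
  Subfield.mem_iSup_of_directed (chain_mono A).directed_le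

lemma union_closed (A : Set ℂ) : GammaClosed (⨆ n, chain A n) := by
  constructor
  · intro z hz
    rw [mem_union_iff] at hz ⊢
    obtain ⟨n, hn⟩ := hz
    exact ⟨n + 1, Subfield.subset_closure (Or.inr (Or.inl ⟨z, hn, rfl⟩))⟩
  · intro z hz
    rw [algebraicIndependent_iff] at hz
    push Not at hz
    obtain ⟨P, hP, hP0⟩ := hz
    rw [mem_union_iff]
    -- all coefficients lie in one member of the chain
    have hco : ∃ n, ∀ s ∈ P.support, ((P.coeff s : (⨆ n, chain A n : Subfield ℂ)) : ℂ) ∈ chain A n := by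
      have h1 : ∀ s, ∃ n, ((P.coeff s : (⨆ n, chain A n : Subfield ℂ)) : ℂ) ∈ chain A n := fun s =>
        (mem_union_iff A _).1 (P.coeff s).2
      choose N hN using h1
      refine ⟨P.support.sup N, fun s hs => ?_⟩
      exact chain_mono A (Finset.le_sup hs) (hN s)
    obtain ⟨n, hn⟩ := hco
    refine ⟨n + 1, Subfield.subset_closure (Or.inr (Or.inr ?_))⟩
    show ¬ AlgebraicIndependent (chain A n) ![Complex.Gamma z, z]
    intro hind
    -- descend `P`
    have hmem : MvPolynomial.map (algebraMap (⨆ n, chain A n : Subfield ℂ) ℂ) P ∈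
        Set.range (MvPolynomial.map (algebraMap (chain A n) ℂ) :
          MvPolynomial (Fin 2) (chain A n) →+* MvPolynomial (Fin 2) ℂ) := by
      rw [MvPolynomial.mem_range_map_iff_coeffs_subset]
      intro c hc
      rw [Finset.mem_coe, MvPolynomial.mem_coeffs_iff] at hc
      obtain ⟨s, hs, rfl⟩ := hc
      have hs' : s ∈ P.support := MvPolynomial.support_map_subset _ _ hs
      rw [MvPolynomial.coeff_map]
      exact ⟨⟨_, hn s hs'⟩, rfl⟩
    obtain ⟨P', hP'⟩ := hmem
    have h1 : aeval ![Complex.Gamma z, z] P' = 0 := by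
      rw [MvPolynomial.aeval_def, ← MvPolynomial.eval_map, hP', MvPolynomial.eval_map,
        ← MvPolynomial.aeval_def, hP]
    have h2 : P' = 0 := by
      rw [algebraicIndependent_iff] at hind
      exact hind P' h1
    apply hP0
    apply MvPolynomial.map_injective _
      (algebraMap (⨆ n, chain A n : Subfield ℂ) ℂ).injective
    rw [← hP', h2, map_zero, map_zero]

/-- every countable set lies in a countable Gamma-closed subfield -/
theorem exists_countable_closed (A : Set ℂ) (hA : A.Countable) :
    ∃ F : Subfield ℂ, (F : Set ℂ).Countable ∧ GammaClosed F ∧ A ⊆ F := by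
  refine ⟨⨆ n, chain A n, ?_, union_closed A, ?_⟩
  · have : ((⨆ n, chain A n : Subfield ℂ) : Set ℂ) = ⋃ n, (chain A n : Set ℂ) := by
      ext z
      rw [Set.mem_iUnion]
      exact mem_union_iff A z
    rw [this]
    exact Set.countable_iUnion fun n => chain_countable A hA n
  · intro z hz
    exact (mem_union_iff A z).2 ⟨0, Subfield.subset_closure hz⟩

theorem gammaClosure_countable (A : Set ℂ) (hA : A.Countable) : (gammaClosure A).Countable := by
  obtain ⟨F, hF, hc, hAF⟩ := exists_countable_closed A hA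
  exact hF.mono fun w hw => hw F hc hAF

/-- the Gamma-closure as a subfield -/
noncomputable def gcl (A : Set ℂ) : Subfield ℂ :=
  sInf {F : Subfield ℂ | GammaClosed F ∧ A ⊆ F}

lemma mem_gcl (A : Set ℂ) (w : ℂ) : w ∈ gcl A ↔ w ∈ gammaClosure A := by
  unfold gcl gammaClosure
  rw [Subfield.mem_sInf]
  constructor
  · intro h F h1 h2; exact h F ⟨h1, h2⟩
  · intro h F hF; exact h F hF.1 hF.2

lemma gcl_le (A : Set ℂ) (F : Subfield ℂ) (h1 : GammaClosed F) (h2 : A ⊆ F) : gcl A ≤ F :=
  sInf_le ⟨h1, h2⟩

lemma gcl_closed (A : Set ℂ) : GammaClosed (gcl A) := by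
  constructor
  · intro z hz
    rw [mem_gcl] at hz ⊢
    intro F h1 h2
    exact h1.1 z (hz F h1 h2)
  · intro z hz
    rw [mem_gcl]
    intro F h1 h2
    apply h1.2
    intro hind
    apply hz
    let i := Subfield.inclusion (gcl_le A F h1 h2)
    let _ : Algebra (gcl A) F := i.toAlgebra
    have : IsScalarTower (gcl A) F ℂ := IsScalarTower.of_algebraMap_eq fun _ => rfl
    exact hind.restrictScalars i.injective

lemma subset_gcl (A : Set ℂ) : A ⊆ gcl A := by
  intro w hw
  exact (mem_gcl A w).2 fun F _ h2 => h2 hw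

end Pool.Agent.H731R3.GA
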