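import Pool.Agent.H731R3.GA.Over

set_option autoImplicit false

namespace Pool.Agent.H731R3.GA

open MvPolynomial

lemma gamma_shift (z : ℂ) (hz : ∀ k : ℤ, z ≠ k) (N : ℕ) :
    Complex.Gamma (z + N) = (∏ l ∈ Finset.range N, (z + l)) * Complex.Gamma z := by
  induction N with
  | zero => simp
  | succ N ih =>
    have hne : z + (N : ℂ) ≠ 0 := by
      intro h
      apply hz (-(N : ℤ))
      push_cast
      linear_combination h
    have h1 : Complex.Gamma (z + ((N + 1 : ℕ) : ℂ)) = (z + N) * Complex.Gamma (z + N) := by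
      rw [← Complex.Gamma_add_one _ hne]; congr 1; push_cast; ring
    rw [h1, ih, Finset.prod_range_succ]
    ring

/-- the number of roots in `x₀ + ℚ` -/
noncomputable def dvs (x₀ : ℂ) (p : Polynomial ℂ) : ℕ := by
  classical
  exact (p.roots.filter fun x => ∃ q : ℚ, x = x₀ + q).card

lemma dvs_mul (x₀ : ℂ) (p q : Polynomial ℂ) (hp : p ≠ 0) (hq : q ≠ 0) :
    dvs x₀ (p * q) = dvs x₀ p + dvs x₀ q := by
  classical
  unfold dvs
  rw [Polynomial.roots_mul (mul_ne_zero hp hq), Multiset.filter_add, Multiset.card_add]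

lemma dvs_one (x₀ : ℂ) : dvs x₀ 1 = 0 := by
  classical
  unfold dvs
  simp

lemma dvs_pow (x₀ : ℂ) (p : Polynomial ℂ) (hp : p ≠ 0) (n : ℕ) :
    dvs x₀ (p ^ n) = n * dvs x₀ p := by
  induction n with
  | zero => simp [dvs_one]
  | succ n ih =>
    rw [pow_succ, dvs_mul _ _ _ (pow_ne_zero _ hp) hp, ih]; ring

lemma dvs_prod {ι : Type} (x₀ : ℂ) (s : Finset ι) (g : ι → Polynomial ℂ) (hg : ∀ i, g i ≠ 0) :
    dvs x₀ (∏ i ∈ s, g i) = ∑ i ∈ s, dvs x₀ (g i) := by
  classical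
  induction s using Finset.induction_on with
  | empty => simp [dvs_one]
  | insert i s hi ih =>
    rw [Finset.prod_insert hi, Finset.sum_insert hi,
      dvs_mul _ _ _ (hg i) (Finset.prod_ne_zero_iff.2 fun j _ => hg j), ih]

/-- the shift by one -/
noncomputable def sh (p : Polynomial ℂ) : Polynomial ℂ :=
  p.comp (Polynomial.C 1 * Polynomial.X + Polynomial.C 1)

lemma sh_eval (p : Polynomial ℂ) (s : ℂ) : (sh p).eval s = p.eval (s + 1) := by
  unfold sh
  simp

lemma sh_ne (p : Polynomial ℂ) (hp : p ≠ 0) : sh p ≠ 0 := by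
  intro h
  apply hp
  apply Polynomial.funext
  intro s
  have := congrArg (Polynomial.eval (s - 1)) h
  rw [sh_eval] at this
  simpa using this

lemma dvs_sh (x₀ : ℂ) (p : Polynomial ℂ) : dvs x₀ (sh p) = dvs x₀ p := by
  classical
  unfold dvs sh
  rw [Polynomial.roots_comp_C_mul_X_add_C p 1 1 isUnit_one, Multiset.filter_map,
    Multiset.card_map]
  congr 1
  refine Multiset.filter_congr fun x _ => ?_
  simp only [Function.comp_apply, Ring.inverse_one, one_mul]
  constructor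
  · rintro ⟨q, hq⟩
    exact ⟨q + 1, by push_cast; linear_combination hq⟩
  · rintro ⟨q, hq⟩
    exact ⟨q - 1, by push_cast; linear_combination hq⟩

lemma dvs_of_all (x₀ : ℂ) (p : Polynomial ℂ) (h : ∀ x ∈ p.roots, ∃ q : ℚ, x = x₀ + q) :
    dvs x₀ p = p.roots.card := by
  classical
  unfold dvs
  rw [Multiset.filter_eq_self.2 h]

lemma dvs_of_none (x₀ : ℂ) (p : Polynomial ℂ) (h : ∀ x ∈ p.roots, ¬ ∃ q : ℚ, x = x₀ + q) :
    dvs x₀ p = 0 := by
  classical
  unfold dvs
  rw [Multiset.filter_eq_nil.2 h, Multiset.card_zero]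

/-- the product of linear factors -/
noncomputable def lin (m b : ℂ) (N : ℕ) : Polynomial ℂ :=
  ∏ l ∈ Finset.range N, (Polynomial.C m * Polynomial.X + Polynomial.C (b + l))

lemma lin_factor_ne (m b : ℂ) (hm : m ≠ 0) :
    Polynomial.C m * Polynomial.X + Polynomial.C b ≠ 0 := by
  intro h
  have := congrArg (fun p => Polynomial.coeff p 1) h
  simp [Polynomial.coeff_C] at this
  exact hm this

lemma lin_ne (m b : ℂ) (hm : m ≠ 0) (N : ℕ) : lin m b N ≠ 0 :=
  Finset.prod_ne_zero_iff.2 fun _ _ => lin_factor_ne m _ hm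

lemma lin_eval (m b : ℂ) (N : ℕ) (s : ℂ) :
    (lin m b N).eval s = ∏ l ∈ Finset.range N, (m * s + b + l) := by
  unfold lin
  rw [Polynomial.eval_prod]
  refine Finset.prod_congr rfl fun l _ => ?_
  simp
  ring

lemma lin_roots (m : ℤ) (b : ℂ) (hm : m ≠ 0) (k : ℤ) (N : ℕ) :
    ∀ x ∈ (lin m (b + k) N).roots, ∃ q : ℚ, x = -(b / m) + q := by
  intro x hx
  have hmc : (m : ℂ) ≠ 0 := by exact_mod_cast hm
  have h1 := (Polynomial.mem_roots'.1 hx).2
  rw [Polynomial.IsRoot, lin_eval, Finset.prod_eq_zero_iff] at h1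
  obtain ⟨l, -, hl⟩ := h1
  refine ⟨-((k : ℚ) + l) / m, ?_⟩
  push_cast
  field_simp
  linear_combination hl

lemma lin_card (m b : ℂ) (hm : m ≠ 0) (N : ℕ) : (lin m b N).roots.card = N := by
  rw [← (IsAlgClosed.splits (lin m b N)).natDegree_eq_card_roots]
  unfold lin
  rw [Polynomial.natDegree_prod _ _ fun i _ => lin_factor_ne m _ hm,
    Finset.sum_congr rfl fun l _ => Polynomial.natDegree_linear hm]
  simp

/-- the data of the shift equation -/
lemma shift_data (m : ℤ) (hm : m ≠ 0) (b : ℂ) : ∃ u v : Polynomial ℂ, u ≠ 0 ∧ v ≠ 0 ∧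
    (∀ s : ℂ, (∀ k : ℤ, m * s + b ≠ k) →
      v.eval s * Complex.Gamma (m * (s + 1) + b) = u.eval s * Complex.Gamma (m * s + b)) ∧
    dvs (-(b / m)) u ≠ dvs (-(b / m)) v ∧
    ∀ x₀ : ℂ, (∀ q : ℚ, -(b / m) - x₀ ≠ q) → dvs x₀ u = 0 ∧ dvs x₀ v = 0 := by
  have hmc : (m : ℂ) ≠ 0 := by exact_mod_cast hm
  have hnone : ∀ (k : ℤ) (N : ℕ) (x₀ : ℂ), (∀ q : ℚ, -(b / m) - x₀ ≠ q) →
      dvs x₀ (lin m (b + k) N) = 0 := by
    intro k N x₀ hx
    apply dvs_of_none
    rintro x hx1 ⟨q, hq⟩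
    obtain ⟨q', hq'⟩ := lin_roots m b hm k N x hx1
    apply hx (q - q')
    push_cast
    linear_combination hq - hq'
  rcases lt_or_gt_of_ne hm with hneg | hpos
  · obtain ⟨N, hN⟩ : ∃ N : ℕ, m = -(N : ℤ) := ⟨m.natAbs, by omega⟩
    have hN0 : N ≠ 0 := by rintro rfl; simp at hN; exact hm hN
    refine ⟨1, lin m (b + (m : ℤ)) N, one_ne_zero, lin_ne _ _ hmc _, ?_, ?_, ?_⟩
    · intro s hs
      have hz : ∀ k : ℤ, (m : ℂ) * (s + 1) + b ≠ k := by
        intro k h
        apply hs (k - m)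
        push_cast
        linear_combination h
      have h1 := gamma_shift _ hz N
      have h2 : (m : ℂ) * (s + 1) + b + N = m * s + b := by
        rw [hN]; push_cast; ring
      rw [h2] at h1
      rw [lin_eval, Polynomial.eval_one, one_mul, h1]
      congr 1
      refine Finset.prod_congr rfl fun l _ => ?_
      ring
    · rw [dvs_one, dvs_of_all _ _ (lin_roots m b hm m N), lin_card _ _ hmc]
      exact hN0.symm
    · intro x₀ hx
      exact ⟨dvs_one _, hnone m N x₀ hx⟩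
  · obtain ⟨N, hN⟩ : ∃ N : ℕ, m = (N : ℤ) := ⟨m.natAbs, by omega⟩
    have hN0 : N ≠ 0 := by rintro rfl; simp at hN; exact hm hN
    refine ⟨lin m (b + (0 : ℤ)) N, 1, lin_ne _ _ hmc _, one_ne_zero, ?_, ?_, ?_⟩
    · intro s hs
      have h1 := gamma_shift _ hs N
      have h2 : (m : ℂ) * s + b + N = m * (s + 1) + b := by
        rw [hN]; push_cast; ring
      rw [h2] at h1
      rw [lin_eval, Polynomial.eval_one, one_mul, h1]
      congr 1
      refine Finset.prod_congr rfl fun l _ => ?_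
      push_cast; ring
    · rw [dvs_one, dvs_of_all _ _ (lin_roots m b hm 0 N), lin_card _ _ hmc]
      exact hN0
    · intro x₀ hx
      exact ⟨hnone 0 N x₀ hx, dvs_one _⟩

end Pool.Agent.H731R3.GA
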