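import Pool.Agent.H731R3.GA.Comm

set_option autoImplicit false

namespace Pool.Agent.H731R3.GA

open MvPolynomial

/-- evaluation of a polynomial over `ℂ[X]` -/
noncomputable def ev {n : ℕ} (f : Fin n → ℂ) (s : ℂ) :
    MvPolynomial (Fin n) (Polynomial ℂ) →+* ℂ :=
  eval₂Hom (Polynomial.evalRingHom s) f

lemma ev_eq {n : ℕ} (f : Fin n → ℂ) (s : ℂ) (p : MvPolynomial (Fin n) (Polynomial ℂ)) :
    ev f s p = ∑ k ∈ p.support, (p.coeff k).eval s * ∏ i, f i ^ k i := by
  unfold ev
  rw [MvPolynomial.coe_eval₂Hom, MvPolynomial.eval₂_eq']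
  rfl

lemma ev_monomial {n : ℕ} (f : Fin n → ℂ) (s : ℂ) (k : Fin n →₀ ℕ) (c : Polynomial ℂ) :
    ev f s (monomial k c) = c.eval s * ∏ i, f i ^ k i := by
  unfold ev
  rw [MvPolynomial.eval₂Hom_monomial, Finsupp.prod_fintype _ _ fun i => pow_zero _]
  rfl

lemma ev_C {n : ℕ} (f : Fin n → ℂ) (s : ℂ) (c : Polynomial ℂ) :
    ev f s (C c) = c.eval s := by
  unfold ev
  rw [MvPolynomial.eval₂Hom_C]
  rfl

/-- the points at which no argument is an integer -/
def good {n : ℕ} (m : Fin n → ℤ) (b : Fin n → ℂ) : Set ℂ :=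
  {s | ∀ i, ∀ k : ℤ, (m i : ℂ) * s + b i ≠ k}

lemma good_shift {n : ℕ} (m : Fin n → ℤ) (b : Fin n → ℂ) (s : ℂ) (hs : s ∈ good m b) :
    s + 1 ∈ good m b := by
  intro i k h
  apply hs i (k - m i)
  push_cast
  linear_combination h

lemma good_gamma {n : ℕ} (m : Fin n → ℤ) (b : Fin n → ℂ) (s : ℂ) (hs : s ∈ good m b) (i : Fin n) :
    Complex.Gamma (m i * s + b i) ≠ 0 := by
  apply Complex.Gamma_ne_zero
  intro k h
  apply hs i (-(k : ℤ))
  push_cast
  exact h

lemma exists_good {n : ℕ} (m : Fin n → ℤ) (b : Fin n → ℂ) (hm : ∀ i, m i ≠ 0)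
    (c : Polynomial ℂ) (hc : c ≠ 0) : ∃ s ∈ good m b, c.eval s ≠ 0 := by
  by_contra hno
  push Not at hno
  have hsub : (Set.univ : Set ℂ) ⊆ (⋃ i, ⋃ k : ℤ, {s : ℂ | (m i : ℂ) * s + b i = k}) ∪
      {s : ℂ | c.IsRoot s} := by
    intro s _
    by_cases h : s ∈ good m b
    · exact Or.inr (hno s h)
    · left
      simp only [good, Set.mem_ofPred_eq, not_forall, not_not] at h
      obtain ⟨i, k, h⟩ := h
      exact Set.mem_iUnion.2 ⟨i, Set.mem_iUnion.2 ⟨k, h⟩⟩
  apply not_countable_complex
  refine Set.Countable.mono hsub (Set.Countable.union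
    (Set.countable_iUnion fun i => Set.countable_iUnion fun k => ?_) ?_)
  · apply Set.Subsingleton.countable
    intro s hs t ht
    have hs' : (m i : ℂ) * s + b i = k := hs
    have ht' : (m i : ℂ) * t + b i = k := ht
    have h1 : (m i : ℂ) * s = m i * t := by linear_combination hs' - ht'
    exact mul_left_cancel₀ (by exact_mod_cast hm i) h1
  · exact (Polynomial.finite_setOfPred_isRoot hc).countable

lemma core {n : ℕ} (m : Fin n → ℤ) (b : Fin n → ℂ) (hm : ∀ i, m i ≠ 0)
    (hsep : ∀ i j, i ≠ j → ∀ q : ℚ, b i / m i - b j / m j ≠ q) :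
    ∀ (N : ℕ) (p : MvPolynomial (Fin n) (Polynomial ℂ)), p.support.card = N → p ≠ 0 →
      ∃ s ∈ good m b, ev (fun i => Complex.Gamma (m i * s + b i)) s p ≠ 0 := by
  classical
  choose u v hu hv huv hdv hoth using fun i => shift_data (m i) (hm i) (b i)
  intro N
  induction N using Nat.strong_induction_on with
  | _ N ih =>
  intro p hcard hp
  by_contra hno
  push Not at hno
  obtain ⟨k0, hk0⟩ := MvPolynomial.support_nonempty.2 hp
  have hc0 : p.coeff k0 ≠ 0 := mem_support_iff.1 hk0
  let M : ℕ := ∑ k ∈ p.support, ∑ i, k i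
  have hM : ∀ k ∈ p.support, ∀ i, k i ≤ M := by
    intro k hk i
    refine le_trans ?_ (Finset.single_le_sum (f := fun k : Fin n →₀ ℕ => ∑ i, k i)
      (fun _ _ => Nat.zero_le _) hk)
    exact Finset.single_le_sum (f := fun i => k i) (fun _ _ => Nat.zero_le _)
      (Finset.mem_univ i)
  let T : (Fin n →₀ ℕ) → Polynomial ℂ := fun k =>
    sh (p.coeff k) * ∏ i, (u i ^ k i * v i ^ (M - k i))
  let p' : MvPolynomial (Fin n) (Polynomial ℂ) := ∑ k ∈ p.support, monomial k (T k)
  have hp'c : ∀ k, p'.coeff k = if k ∈ p.support then T k else 0 := by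
    intro k
    simp only [p', coeff_sum, coeff_monomial]
    rw [Finset.sum_ite_eq']
  have hp'ev : ∀ s ∈ good m b, ev (fun i => Complex.Gamma (m i * s + b i)) s p' = 0 := by
    intro s hs
    have h0 := hno (s + 1) (good_shift m b s hs)
    rw [ev_eq] at h0
    have h1 : ev (fun i => Complex.Gamma (m i * s + b i)) s p' =
        (∏ i, (v i).eval s ^ M) * ∑ k ∈ p.support, (p.coeff k).eval (s + 1) *
          ∏ i, Complex.Gamma (m i * (s + 1) + b i) ^ k i := by
      simp only [p', map_sum]
      rw [Finset.mul_sum]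
      refine Finset.sum_congr rfl fun k hk => ?_
      rw [ev_monomial]
      simp only [T]
      rw [Polynomial.eval_mul, sh_eval, Polynomial.eval_prod]
      have h2 : (∏ i, (u i ^ k i * v i ^ (M - k i)).eval s) *
          ∏ i, Complex.Gamma (m i * s + b i) ^ k i =
          (∏ i, (v i).eval s ^ M) * ∏ i, Complex.Gamma (m i * (s + 1) + b i) ^ k i := by
        rw [← Finset.prod_mul_distrib, ← Finset.prod_mul_distrib]
        refine Finset.prod_congr rfl fun i _ => ?_
        have h3 := huv i s (hs i)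
        have h4 : (v i).eval s ^ M = (v i).eval s ^ k i * (v i).eval s ^ (M - k i) := by
          rw [← pow_add]; congr 1; have := hM k hk i; omega
        rw [Polynomial.eval_mul, Polynomial.eval_pow, Polynomial.eval_pow, h4]
        calc (u i).eval s ^ k i * (v i).eval s ^ (M - k i) * Complex.Gamma (m i * s + b i) ^ k i
            = ((u i).eval s * Complex.Gamma (m i * s + b i)) ^ k i *
              (v i).eval s ^ (M - k i) := by rw [mul_pow]; ring
          _ = ((v i).eval s * Complex.Gamma (m i * (s + 1) + b i)) ^ k i *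
              (v i).eval s ^ (M - k i) := by rw [h3]
          _ = _ := by rw [mul_pow]; ring
      rw [mul_assoc, h2]
      ring
    rw [h1, h0, mul_zero]
  let p'' : MvPolynomial (Fin n) (Polynomial ℂ) := C (p.coeff k0) * p' - C (T k0) * p
  have hp''c : ∀ k, p''.coeff k = p.coeff k0 * p'.coeff k - T k0 * p.coeff k := by
    intro k
    simp only [p'', coeff_sub, coeff_C_mul]
  have hsupp : p''.support ⊆ p.support.erase k0 := by
    intro k hk
    rw [mem_support_iff, hp''c, hp'c] at hk
    rw [Finset.mem_erase]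
    by_cases h1 : k ∈ p.support
    · refine ⟨?_, h1⟩
      rintro rfl
      apply hk
      rw [if_pos h1]; ring
    · exfalso
      apply hk
      rw [if_neg h1, notMem_support_iff.1 h1]; ring
  have hp''0 : p'' = 0 := by
    by_contra hne
    have hlt : p''.support.card < N := by
      have h1 := Finset.card_le_card hsupp
      rw [Finset.card_erase_of_mem hk0, hcard] at h1
      have h2 : 0 < N := by rw [← hcard]; exact Finset.card_pos.2 ⟨k0, hk0⟩
      omega
    obtain ⟨s, hs, hs2⟩ := ih _ hlt p'' rfl hne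
    apply hs2
    simp only [p'', map_sub, map_mul, ev_C]
    rw [hp'ev s hs, hno s hs]
    ring
  have hcoef : ∀ k ∈ p.support, p.coeff k0 * T k = T k0 * p.coeff k := by
    intro k hk
    have h1 := hp''c k
    rw [hp''0, hp'c, if_pos hk, coeff_zero] at h1
    linear_combination -h1
  have hsame : ∀ k ∈ p.support, k = k0 := by
    intro k hk
    ext i
    have h1 := congrArg (dvs (-(b i / m i))) (hcoef k hk)
    have hck : p.coeff k ≠ 0 := mem_support_iff.1 hk
    have hfac : ∀ (l : Fin n →₀ ℕ) (j : Fin n), u j ^ l j * v j ^ (M - l j) ≠ 0 := fun l j =>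
      mul_ne_zero (pow_ne_zero _ (hu j)) (pow_ne_zero _ (hv j))
    have hT : ∀ l ∈ p.support, dvs (-(b i / m i)) (T l) = dvs (-(b i / m i)) (p.coeff l) +
        (l i * dvs (-(b i / m i)) (u i) + (M - l i) * dvs (-(b i / m i)) (v i)) := by
      intro l hl
      simp only [T]
      rw [dvs_mul _ _ _ (sh_ne _ (mem_support_iff.1 hl))
        (Finset.prod_ne_zero_iff.2 fun j _ => hfac l j), dvs_sh,
        dvs_prod _ _ _ (hfac l)]
      congr 1
      rw [Finset.sum_eq_single i]
      · rw [dvs_mul _ _ _ (pow_ne_zero _ (hu i)) (pow_ne_zero _ (hv i)), dvs_pow _ _ (hu i),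
          dvs_pow _ _ (hv i)]
      · intro j _ hj
        have h2 := hoth j (-(b i / m i)) (by
          intro q hq
          apply hsep i j hj.symm q
          linear_combination hq)
        rw [dvs_mul _ _ _ (pow_ne_zero _ (hu j)) (pow_ne_zero _ (hv j)), dvs_pow _ _ (hu j),
          dvs_pow _ _ (hv j), h2.1, h2.2]
        ring
      · intro h; exact absurd (Finset.mem_univ i) h
    have hTne : ∀ l ∈ p.support, T l ≠ 0 := fun l hl =>
      mul_ne_zero (sh_ne _ (mem_support_iff.1 hl)) (Finset.prod_ne_zero_iff.2 fun j _ => hfac l j)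
    rw [dvs_mul _ _ _ hc0 (hTne k hk), dvs_mul _ _ _ (hTne k0 hk0) hck, hT k hk, hT k0 hk0] at h1
    have h5 := hdv i
    have h6 := hM k hk i
    have h7 := hM k0 hk0 i
    set Du := dvs (-(b i / m i)) (u i) with hDu
    set Dv := dvs (-(b i / m i)) (v i) with hDv
    have h8 : k i * Du + (M - k i) * Dv = k0 i * Du + (M - k0 i) * Dv := by omega
    have h9 : ((k i : ℤ) - k0 i) * ((Du : ℤ) - Dv) = 0 := by
      zify [h6, h7] at h8
      linear_combination h8
    rcases mul_eq_zero.1 h9 with h10 | h10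
    · omega
    · exfalso; apply h5; omega
  obtain ⟨s, hs, hs2⟩ := exists_good m b hm (p.coeff k0) hc0
  have h1 := hno s hs
  have h2 : p.support = {k0} := by
    ext k
    rw [Finset.mem_singleton]
    exact ⟨hsame k, fun h => h ▸ hk0⟩
  rw [ev_eq, h2, Finset.sum_singleton] at h1
  rcases mul_eq_zero.1 h1 with h3 | h3
  · exact hs2 h3
  · exact (Finset.prod_ne_zero_iff.2 fun i _ => pow_ne_zero _ (good_gamma m b s hs i)) h3

lemma eval_option {n : ℕ} (a b : Fin n → ℂ) (s : ℂ) (P : MvPolynomial (Option (Fin n)) ℂ) :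
    eval (pt a b s) P =
      ev (fun i => Complex.Gamma (a i * s + b i)) s (optionEquivRight ℂ (Fin n) P) := by
  induction P using MvPolynomial.induction_on with
  | C c =>
    rw [optionEquivRight_C, ev_C]
    simp
  | add p q hp hq => rw [map_add, map_add, map_add, hp, hq]
  | mul_X p o hp =>
    rw [map_mul, map_mul, map_mul, hp, eval_X]
    congr 1
    rcases o with _ | i
    · rw [optionEquivRight_X_none, ev_C]
      simp [pt]
    · rw [optionEquivRight_X_some]
      unfold ev
      rw [eval₂Hom_X']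
      rfl

lemma zeros_of_dom {n : ℕ} (a b : Fin n → ℂ) (ha : ∀ i, a i ≠ 0)
    (P : MvPolynomial (Option (Fin n)) ℂ)
    (hex : ∃ s : ℂ, (∀ i, Complex.Gamma (a i * s + b i) ≠ 0) ∧ eval (pt a b s) P ≠ 0) :
    {s : ℂ | eval (pt a b s) P = 0}.Countable := by
  classical
  obtain ⟨s0, hs0, hs1⟩ := hex
  let N : ℕ := ∑ k ∈ P.support, ∑ i, k (some i)
  have hN : ∀ k ∈ P.support, ∀ i, k (some i) ≤ N := by
    intro k hk i
    refine le_trans ?_ (Finset.single_le_sum (f := fun k => ∑ i, k (some i))
      (fun _ _ => Nat.zero_le _) hk)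
    exact Finset.single_le_sum (f := fun i => k (some i)) (fun _ _ => Nat.zero_le _)
      (Finset.mem_univ i)
  let G : ℂ → ℂ := fun s => ∑ k ∈ P.support, P.coeff k * (s ^ k none *
    ∏ i, ((Complex.Gamma (a i * s + b i))⁻¹) ^ (N - k (some i)))
  have hGd : Differentiable ℂ G := by
    apply Differentiable.fun_sum
    intro k _
    refine (differentiable_const _).mul ((differentiable_id.pow _).mul ?_)
    refine Differentiable.fun_finsetProd fun i _ => ?_
    exact (Complex.differentiable_one_div_Gamma.comp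
      ((differentiable_id.const_mul (a i)).add (differentiable_const (b i)))).pow _
  have key : ∀ s, (∀ i, Complex.Gamma (a i * s + b i) ≠ 0) →
      eval (pt a b s) P = G s * ∏ i, Complex.Gamma (a i * s + b i) ^ N := by
    intro s hs
    rw [MvPolynomial.eval_eq']
    simp only [G]
    rw [Finset.sum_mul]
    refine Finset.sum_congr rfl fun k hk => ?_
    rw [Fintype.prod_option, mul_assoc, mul_assoc, ← Finset.prod_mul_distrib]
    congr 2
    refine Finset.prod_congr rfl fun i _ => ?_
    show Complex.Gamma (a i * s + b i) ^ k (some i) = _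
    rw [inv_pow, inv_mul_eq_div, eq_div_iff (pow_ne_zero _ (hs i)), ← pow_add]
    congr 1
    have := hN k hk i
    omega
  have hG0 : G s0 ≠ 0 := by
    intro h
    apply hs1
    rw [key s0 hs0, h, zero_mul]
  have hz := entire_zeros G hGd s0 hG0
  have hpole : {z : ℂ | Complex.Gamma z = 0}.Countable := by
    have : {z : ℂ | Complex.Gamma z = 0} ⊆ Set.range fun m : ℕ => -(m : ℂ) := by
      intro z hz
      obtain ⟨m, hm⟩ := Complex.Gamma_eq_zero_iff z |>.1 hz
      exact ⟨m, hm.symm⟩
    exact (Set.countable_range _).mono this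
  have hpole2 : (⋃ i, {z : ℂ | Complex.Gamma (a i * z + b i) = 0}).Countable := by
    refine Set.countable_iUnion fun i => ?_
    refine Set.Countable.preimage_of_injOn (f := fun z => a i * z + b i)
      (s := {z : ℂ | Complex.Gamma z = 0}) hpole ?_
    intro x _ y _ hab
    have : a i * x = a i * y := by simpa using hab
    exact mul_left_cancel₀ (ha i) this
  refine (hz.union hpole2).mono ?_
  intro z hz0
  by_cases hG : ∀ i, Complex.Gamma (a i * z + b i) ≠ 0
  · left
    have h1 : eval (pt a b z) P = 0 := hz0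
    rw [key z hG] at h1
    rcases mul_eq_zero.1 h1 with h2 | h2
    · exact h2
    · exact absurd h2 (Finset.prod_ne_zero_iff.2 fun i _ => pow_ne_zero _ (hG i))
  · right
    push Not at hG
    obtain ⟨i, hi⟩ := hG
    exact Set.mem_iUnion.2 ⟨i, hi⟩

lemma comm_zeros {n : ℕ} (m : Fin n → ℤ) (b : Fin n → ℂ) (hm : ∀ i, m i ≠ 0)
    (hsep : ∀ i j, i ≠ j → ∀ q : ℚ, b i / m i - b j / m j ≠ q)
    (P : MvPolynomial (Option (Fin n)) ℂ) (hP : P ≠ 0) :
    {s : ℂ | eval (pt (fun i => (m i : ℂ)) b s) P = 0}.Countable := by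
  apply zeros_of_dom _ _ (fun i => by exact_mod_cast hm i)
  obtain ⟨s, hs, hs2⟩ := core m b hm hsep _ (optionEquivRight ℂ (Fin n) P) rfl
    ((map_ne_zero_iff _ (optionEquivRight ℂ (Fin n)).injective).2 hP)
  refine ⟨s, fun i => good_gamma m b s hs i, ?_⟩
  rw [eval_option]
  exact hs2

/-- lines of rational direction -/
theorem comm_over (F : Type) [Field F] [Algebra F ℂ] [Countable F] {n : ℕ} (hn : 0 < n)
    (m : Fin n → ℤ) (b : Fin n → ℂ) (hm : ∀ i, m i ≠ 0) (t₀ : ℂ)
    (hH : ∀ i j, i ≠ j → ∀ q q' : ℚ, (m j : ℂ) * t₀ + b j ≠ q * (m i * t₀ + b i) + q') :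
    {t : ℂ | Algebra.trdeg F (fld F fun k => (m k : ℂ) * t + b k) < n + 1}.Countable := by
  classical
  set i : Fin n := ⟨0, hn⟩
  have hmc : ∀ k, (m k : ℂ) ≠ 0 := fun k => by exact_mod_cast hm k
  let b' : Fin n → ℂ := fun k => b k - m k * (b i / m i)
  have hsep : ∀ k j, k ≠ j → ∀ q : ℚ, b' k / m k - b' j / m j ≠ q := by
    intro k j hkj q hq
    have h1 : b k / m k - b j / m j = q := by
      rw [← hq]
      simp only [b']
      have hk := hmc k
      have hj := hmc j
      have hi := hmc i
      field_simp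
      ring
    apply hH k j hkj ((m j : ℚ) / m k) (-(q * m j))
    have h2 : b j = m j * (b k / m k) - q * m j := by
      have hj := hmc j
      rw [← h1]
      field_simp
      ring
    rw [h2]
    push_cast
    have hk := hmc k
    field_simp
    ring
  have hc := dep_over F (pt (fun k => (m k : ℂ)) b') (comm_zeros m b' hm hsep)
  have hpre : {t : ℂ | ¬ AlgebraicIndependent F
      (pt (fun k => (m k : ℂ)) b' (t + b i / m i))}.Countable := by
    refine Set.Countable.preimage_of_injOn (f := fun t => t + b i / m i)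
      (s := {s : ℂ | ¬ AlgebraicIndependent F (pt (fun k => (m k : ℂ)) b' s)}) hc ?_
    intro x _ y _ hxy
    simpa using hxy
  refine hpre.mono ?_
  intro t ht hind
  have hmem : ∀ o, pt (fun k => (m k : ℂ)) b' (t + b i / m i) o ∈
      fld F fun k => (m k : ℂ) * t + b k := by
    intro o
    rcases o with _ | k
    · have h1 : (m i : ℂ) * t + b i ∈ fld F fun k => (m k : ℂ) * t + b k :=
        IntermediateField.subset_adjoin _ _ (Or.inl ⟨i, rfl⟩)
      have h2 : ((m i : ℤ) : ℂ) ∈ fld F fun k => (m k : ℂ) * t + b k :=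
        intCast_mem _ _
      have h3 : pt (fun k => (m k : ℂ)) b' (t + b i / m i) none = ((m i : ℂ) * t + b i) / m i := by
        show t + b i / m i = _
        have := hmc i
        field_simp
      rw [h3]
      exact div_mem h1 h2
    · have h3 : pt (fun k => (m k : ℂ)) b' (t + b i / m i) (some k) =
          Complex.Gamma (m k * t + b k) := by
        show Complex.Gamma ((m k : ℂ) * (t + b i / m i) + (b k - m k * (b i / m i))) = _
        congr 1
        ring
      rw [h3]
      exact IntermediateField.subset_adjoin _ _ (Or.inr ⟨k, rfl⟩)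
  let x' : Option (Fin n) → fld F fun k => (m k : ℂ) * t + b k := fun o => ⟨_, hmem o⟩
  have hx' : AlgebraicIndependent F x' :=
    (AlgHom.algebraicIndependent_iff (fld F fun k => (m k : ℂ) * t + b k).val
      Subtype.val_injective).1 hind
  have h3 := hx'.cardinalMk_le_trdeg
  rw [Cardinal.mk_option, Cardinal.mk_fin] at h3
  have ht' : Algebra.trdeg F (fld F fun k => (m k : ℂ) * t + b k) < n + 1 := ht
  exact absurd h3 (not_le.2 ht')

end Pool.Agent.H731R3.GA
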