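import Pool.Agent.H731R3.GA.CommB

set_option autoImplicit false

namespace Pool.Agent.H731R3.GA

open MvPolynomial

theorem comm_family (F : Type) [Field F] [Algebra F ℂ] [Countable F] {n : ℕ} (a b : Fin n → ℂ)
    (J : Finset (Fin n)) (t₀ : ℂ) (hJ : J.Nonempty) (ha : ∀ i ∈ J, a i ≠ 0)
    (hq : ∀ i ∈ J, ∀ j ∈ J, ∃ q : ℚ, a j = q * a i)
    (hH : ∀ i ∈ J, ∀ j ∈ J, i ≠ j → ∀ q q' : ℚ,
      a j * t₀ + b j ≠ q * (a i * t₀ + b i) + q') :
    {t : ℂ | Algebra.trdeg F (fld F fun k => a k * t + b k) < J.card + 1}.Countable := by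
  classical
  set r := J.card with hr
  have hr0 : 0 < r := Finset.card_pos.2 hJ
  let e : Fin r → Fin n := fun k => (J.equivFin.symm k : Fin n)
  have heJ : ∀ k, e k ∈ J := fun k => (J.equivFin.symm k).2
  have hinj : Function.Injective e := fun x y h =>
    J.equivFin.symm.injective (Subtype.ext h)
  set c := a (e ⟨0, hr0⟩) with hc
  have hc0 : c ≠ 0 := ha _ (heJ _)
  choose q hqk using fun k => hq _ (heJ ⟨0, hr0⟩) _ (heJ k)
  obtain ⟨D, hD⟩ := IsLocalization.exist_integer_multiples_of_finite (nonZeroDivisors ℤ) q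
  choose m hm using hD
  have hD0 : (D : ℤ) ≠ 0 := nonZeroDivisors.ne_zero D.2
  have hDc : (((D : ℤ) : ℤ) : ℂ) ≠ 0 := by exact_mod_cast hD0
  have hmq : ∀ k, (m k : ℂ) = ((D : ℤ) : ℂ) * (q k : ℂ) := by
    intro k
    have h1 : ((m k : ℤ) : ℚ) = ((D : ℤ) : ℚ) * q k := by
      have h2 := hm k
      rw [zsmul_eq_mul] at h2
      exact h2
    have h3 : (((m k : ℤ) : ℚ) : ℂ) = ((((D : ℤ) : ℚ) * q k : ℚ) : ℂ) := by rw [h1]
    push_cast at h3
    exact h3
  set c' : ℂ := c / ((D : ℤ) : ℂ) with hc'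
  have hc'0 : c' ≠ 0 := div_ne_zero hc0 hDc
  have hae : ∀ k, a (e k) = m k * c' := by
    intro k
    rw [hqk k, hmq k, hc', ← hc]
    field_simp
  have hm0 : ∀ k, m k ≠ 0 := by
    intro k h
    apply ha (e k) (heJ k)
    rw [hae k, h]; simp
  have h := comm_over F hr0 m (fun k => b (e k)) hm0 (c' * t₀) (by
    intro i j hij x y hxy
    apply hH (e i) (heJ i) (e j) (heJ j) (fun h => hij (hinj h)) x y
    rw [hae i, hae j]
    linear_combination hxy)
  have hpre : {t : ℂ | Algebra.trdeg F (fld F fun k => (m k : ℂ) * (c' * t) + b (e k))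
      < r + 1}.Countable := by
    refine Set.Countable.preimage_of_injOn (f := fun t => c' * t)
      (s := {t : ℂ | Algebra.trdeg F (fld F fun k => (m k : ℂ) * t + b (e k)) < r + 1}) h ?_
    intro x _ y _ hxy
    exact mul_left_cancel₀ hc'0 hxy
  refine hpre.mono ?_
  intro t ht
  have ht' : Algebra.trdeg F (fld F fun k => a k * t + b k) < r + 1 := ht
  show Algebra.trdeg F (fld F fun k => (m k : ℂ) * (c' * t) + b (e k)) < r + 1
  have hle : (fld F fun k => (m k : ℂ) * (c' * t) + b (e k)) ≤ fld F fun k => a k * t + b k := by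
    apply IntermediateField.adjoin.mono
    apply Set.union_subset_union
    · rintro _ ⟨k, rfl⟩
      refine ⟨e k, ?_⟩
      simp only
      rw [hae k]; ring
    · rintro _ ⟨k, rfl⟩
      refine ⟨e k, ?_⟩
      simp only
      congr 1
      rw [hae k]; ring
  exact lt_of_le_of_lt (trdeg_le_of_injective (IntermediateField.inclusion hle)
    (IntermediateField.inclusion hle).injective) ht'

end Pool.Agent.H731R3.GA
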