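import Pool.Agent.H731R3.GA.Grow

set_option autoImplicit false

namespace Pool.Agent.H731R3.GA

open Filter Topology Complex

lemma sin_alt (α β : ℂ) (h : ¬ ((∃ k : ℤ, α = k) ∧ ∃ k : ℤ, β = k)) :
    ∃ c : ℝ, 0 < c ∧ ∀ m : ℕ, c ≤ ‖Complex.sin (Real.pi * (β - α * m))‖ ∨
      c ≤ ‖Complex.sin (Real.pi * (β - α * (m + 1 : ℕ)))‖ := by
  have hpi : (Real.pi : ℂ) ≠ 0 := by exact_mod_cast Real.pi_ne_zero
  have hsz : ∀ x : ℂ, Complex.sin (Real.pi * x) = 0 → ∃ k : ℤ, x = k := by
    intro x hx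
    obtain ⟨k, hk⟩ := Complex.sin_eq_zero_iff.1 hx
    refine ⟨k, ?_⟩
    have : (Real.pi : ℂ) * x = Real.pi * k := by rw [hk]; ring
    exact mul_left_cancel₀ hpi this
  by_cases hα : ∃ k : ℤ, α = k
  · obtain ⟨k, rfl⟩ := hα
    have hβ : ¬ ∃ k : ℤ, β = k := fun hb => h ⟨⟨k, rfl⟩, hb⟩
    have hs : Complex.sin (Real.pi * β) ≠ 0 := fun h0 => hβ (hsz β h0)
    refine ⟨‖Complex.sin (Real.pi * β)‖, norm_pos_iff.2 hs, fun m => Or.inl ?_⟩
    have h1 : (Real.pi : ℂ) * (β - k * m) = Real.pi * β - ((k * m : ℤ) : ℂ) * Real.pi := by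
      push_cast; ring
    have h2 : ‖Complex.cos (((k * m : ℤ) : ℂ) * Real.pi)‖ = 1 := by
      have h3 := Complex.sin_sq_add_cos_sq (((k * m : ℤ) : ℂ) * Real.pi)
      rw [Complex.sin_int_mul_pi] at h3
      have h4 : ‖Complex.cos (((k * m : ℤ) : ℂ) * Real.pi)‖ ^ 2 = 1 := by
        rw [← norm_pow]
        have h5 : Complex.cos (((k * m : ℤ) : ℂ) * Real.pi) ^ 2 = 1 := by
          linear_combination h3
        rw [h5, norm_one]
      exact (pow_eq_one_iff_of_nonneg (norm_nonneg _) (by norm_num)).1 h4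
    rw [h1, Complex.sin_sub, Complex.sin_int_mul_pi, mul_zero, sub_zero,
      norm_mul, h2, mul_one]
  · have hs : Complex.sin (Real.pi * α) ≠ 0 := fun h0 => hα (hsz α h0)
    set s := ‖Complex.sin (Real.pi * α)‖ with hsdef
    have hspos : 0 < s := norm_pos_iff.2 hs
    set q := 1 + ‖Complex.cos (Real.pi * α)‖ with hq
    have hqpos : 0 < q := by positivity
    refine ⟨min (1 / 2) (s / (4 * q)), by positivity, fun m => ?_⟩
    by_contra hno
    push Not at hno
    obtain ⟨h1, h2⟩ := hno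
    set x : ℂ := Real.pi * (β - α * m) with hx
    have hx2 : (Real.pi : ℂ) * (β - α * (m + 1 : ℕ)) = x - Real.pi * α := by
      rw [hx]; push_cast; ring
    rw [hx2] at h2
    have h1a : ‖Complex.sin x‖ < 1 / 2 := h1.trans_le (min_le_left _ _)
    have h1b : ‖Complex.sin x‖ < s / (4 * q) := h1.trans_le (min_le_right _ _)
    have h2b : ‖Complex.sin (x - Real.pi * α)‖ < s / (4 * q) := h2.trans_le (min_le_right _ _)
    have hcos : (1 : ℝ) / 2 ≤ ‖Complex.cos x‖ := by
      by_contra hc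
      push Not at hc
      have h3 : (1 : ℝ) = ‖Complex.sin x ^ 2 + Complex.cos x ^ 2‖ := by
        rw [Complex.sin_sq_add_cos_sq, norm_one]
      have h4 := norm_add_le (Complex.sin x ^ 2) (Complex.cos x ^ 2)
      rw [norm_pow, norm_pow] at h4
      have h5 := norm_nonneg (Complex.sin x)
      have h6 := norm_nonneg (Complex.cos x)
      nlinarith
    have hid : Complex.cos x * Complex.sin (Real.pi * α) =
        Complex.sin x * Complex.cos (Real.pi * α) - Complex.sin (x - Real.pi * α) := by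
      rw [Complex.sin_sub]; ring
    have h3 : 1 / 2 * s ≤ s / (4 * q) * ‖Complex.cos (Real.pi * α)‖ + s / (4 * q) := by
      calc 1 / 2 * s ≤ ‖Complex.cos x‖ * s := by gcongr
        _ = ‖Complex.cos x * Complex.sin (Real.pi * α)‖ := by rw [norm_mul]
        _ ≤ ‖Complex.sin x * Complex.cos (Real.pi * α)‖ + ‖Complex.sin (x - Real.pi * α)‖ := by
            rw [hid]; exact norm_sub_le _ _
        _ ≤ _ := by
            rw [norm_mul]; gcongr
    have h4 : s / (4 * q) * ‖Complex.cos (Real.pi * α)‖ + s / (4 * q) = s / 4 := by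
      rw [hq]; field_simp; ring
    rw [h4] at h3
    linarith

/-- along an arithmetic progression going to the left, `1/Γ` is infinitely often large -/
lemma grow_left (β α : ℂ) (hα : 0 < α.re) (h : ¬ ((∃ k : ℤ, α = k) ∧ ∃ k : ℤ, β = k))
    (K : ℕ) (B : ℝ) :
    ∃ᶠ m : ℕ in atTop, B * ((m : ℝ) + 1) ^ K ≤ ‖(Complex.Gamma (β - α * m))⁻¹‖ := by
  obtain ⟨c, hc, hsin⟩ := sin_alt α β h
  have hpi : (Real.pi : ℂ) ≠ 0 := by exact_mod_cast Real.pi_ne_zero
  have hg := grow_right (1 - β) α hα K (|B| * Real.pi / c)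
  rw [eventually_atTop] at hg
  obtain ⟨M, hM⟩ := hg
  rw [frequently_atTop]
  intro a
  have key : ∀ m : ℕ, M ≤ m → c ≤ ‖Complex.sin (Real.pi * (β - α * m))‖ →
      B * ((m : ℝ) + 1) ^ K ≤ ‖(Complex.Gamma (β - α * m))⁻¹‖ := by
    intro m hm hs
    have h1 := hM m hm
    set w : ℂ := β - α * m with hw
    have hsne : Complex.sin (Real.pi * w) ≠ 0 := by
      intro h0; rw [h0, norm_zero] at hs; linarith
    have hrefl := Complex.Gamma_mul_Gamma_one_sub w
    have hne : Complex.Gamma w * Complex.Gamma (1 - w) ≠ 0 := by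
      rw [hrefl]; exact div_ne_zero hpi hsne
    have hG : Complex.Gamma w ≠ 0 := left_ne_zero_of_mul hne
    have hinv : (Complex.Gamma w)⁻¹ = Complex.Gamma (1 - w) * Complex.sin (Real.pi * w) / Real.pi := by
      rw [eq_div_iff hpi, inv_mul_eq_iff_eq_mul₀ hG, ← mul_assoc, hrefl]
      field_simp
    have h1w : (1 : ℂ) - w = 1 - β + α * m := by rw [hw]; ring
    rw [hinv, norm_div, norm_mul, Complex.norm_real, Real.norm_eq_abs, abs_of_pos Real.pi_pos,
      le_div_iff₀ Real.pi_pos, h1w]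
    calc B * ((m : ℝ) + 1) ^ K * Real.pi ≤ |B| * ((m : ℝ) + 1) ^ K * Real.pi := by
          gcongr; exact le_abs_self B
      _ = (|B| * Real.pi / c * ((m : ℝ) + 1) ^ K) * c := by field_simp
      _ ≤ ‖Complex.Gamma (1 - β + α * m)‖ * ‖Complex.sin (Real.pi * w)‖ := by gcongr
  rcases hsin (max a M) with h1 | h1
  · exact ⟨max a M, le_max_left _ _, key _ (le_max_right _ _) h1⟩
  · exact ⟨max a M + 1, (le_max_left _ _).trans (Nat.le_succ _),
      key _ ((le_max_right _ _).trans (Nat.le_succ _)) h1⟩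

lemma shift_norm (w : ℂ) (hw : 1 ≤ |w.im|) (N : ℕ) :
    ‖Complex.Gamma w‖ ≤ ‖Complex.Gamma (w + N)‖ := by
  induction N with
  | zero => simp
  | succ N ih =>
    refine ih.trans ?_
    have him : (w + (N : ℂ)).im = w.im := by simp
    have h1 : 1 ≤ ‖w + (N : ℂ)‖ := by
      have := Complex.abs_im_le_norm (w + (N : ℂ))
      rw [him] at this
      linarith
    have hne : w + (N : ℂ) ≠ 0 := by
      intro h; rw [h, norm_zero] at h1; linarith
    have h2 : Complex.Gamma (w + ((N + 1 : ℕ) : ℂ)) = (w + N) * Complex.Gamma (w + N) := by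
      rw [← Complex.Gamma_add_one _ hne]; congr 1; push_cast; ring
    rw [h2, norm_mul]
    exact le_mul_of_one_le_left (norm_nonneg _) h1

/-- along a vertical arithmetic progression, `Γ` decays faster than any power -/
lemma grow_vert (β α : ℂ) (hα : α.re = 0) (hα0 : α ≠ 0) (hnz : ∀ᶠ m : ℕ in atTop,
    Complex.Gamma (β - α * m) ≠ 0) (K : ℕ) (B : ℝ) :
    ∀ᶠ m : ℕ in atTop, B * ((m : ℝ) + 1) ^ K ≤ ‖(Complex.Gamma (β - α * m))⁻¹‖ := by
  have ha : α.im ≠ 0 := fun h => hα0 (Complex.ext hα h)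
  set a := |α.im| with hadef
  have hapos : 0 < a := abs_pos.2 ha
  set b := |β.im| with hbdef
  have hb : 0 ≤ b := abs_nonneg _
  set N : ℕ := ⌈|β.re|⌉₊ + 1 with hN
  set σ : ℝ := β.re + N with hσ
  have hσpos : 0 < σ := by
    have h1 : |β.re| ≤ ⌈|β.re|⌉₊ := Nat.le_ceil _
    have h2 : -|β.re| ≤ β.re := neg_abs_le _
    rw [hσ, hN]; push_cast; linarith
  set M : ℕ := ⌈σ⌉₊ with hM
  set L : ℝ := (1 + b) / a + 1 with hL
  have hLpos : 0 < L := by positivity
  set C1 : ℝ := Real.exp 1 * Real.Gamma σ * (Real.pi / 2) ^ σ with hC1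
  have hC1pos : 0 < C1 := by
    have := Real.Gamma_pos_of_pos hσpos
    positivity
  set y : ℕ → ℝ := fun m => 1 + |(β - α * m).im| with hy
  have him : ∀ m : ℕ, (β - α * m).im = β.im - α.im * m := by intro m; simp
  have hylow : ∀ m : ℕ, a * m - b ≤ |(β - α * m).im| := by
    intro m
    rw [him]
    have h1 : a * m = |α.im * m| := by rw [abs_mul, Nat.abs_cast]
    rw [h1, hbdef]
    have := abs_sub_abs_le_abs_sub (α.im * m) β.im
    rw [abs_sub_comm β.im]
    exact this
  have hyt : Tendsto y atTop atTop := by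
    refine tendsto_atTop_mono (f := fun m : ℕ => a * (m : ℝ) - b) (fun m => ?_) ?_
    · have := hylow m
      simp only [hy]; linarith
    · exact tendsto_atTop_add_const_right _ _ (tendsto_natCast_atTop_atTop.const_mul_atTop hapos)
  have hdec := (Real.tendsto_pow_mul_exp_neg_atTop_nhds_zero (K + M)).comp hyt
  have hdec2 := hdec.const_mul (|B| * L ^ K * C1 * Real.exp 1)
  rw [mul_zero] at hdec2
  have hev := hdec2.eventually (gt_mem_nhds (show (0 : ℝ) < 1 by norm_num))
  have hy2 := hyt.eventually_ge_atTop 2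
  filter_upwards [hev, hy2, hnz] with m h1 h2 h3
  simp only [Function.comp_apply] at h1
  set w : ℂ := β - α * m with hw
  set v := |w.im| with hv
  have hyv : y m = 1 + v := rfl
  rw [hyv] at h1 h2
  have hv1 : 1 ≤ v := by linarith
  have hwre : w.re = β.re := by simp [hw, hα]
  have hwN : w + (N : ℂ) = ((σ : ℝ) : ℂ) + (w.im : ℝ) * I := by
    apply Complex.ext
    · simp [hσ, hwre]
    · simp
  have h4 := shift_norm w hv1 N
  have h5 := Helper242.KK.norm_Gamma_le w.im hσpos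
  rw [← hwN] at h5
  have h6 : ‖Complex.Gamma w‖ ≤ C1 * (1 + v) ^ M * Real.exp (-v) := by
    refine h4.trans (h5.trans ?_)
    have h7 : (Real.pi / 2 * (1 + |w.im|)) ^ σ = (Real.pi / 2) ^ σ * (1 + v) ^ σ := by
      rw [Real.mul_rpow (by positivity) (by positivity)]
    have h8 : (1 + v) ^ σ ≤ (1 + v) ^ M := by
      rw [← Real.rpow_natCast]
      exact Real.rpow_le_rpow_of_exponent_le (by linarith) (Nat.le_ceil _)
    have h9 : Real.exp (1 - Real.pi / 2 * |w.im|) ≤ Real.exp 1 * Real.exp (-v) := by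
      rw [← Real.exp_add]
      apply Real.exp_le_exp.2
      have := Real.pi_gt_three
      nlinarith
    have hG : 0 ≤ Real.Gamma σ := (Real.Gamma_pos_of_pos hσpos).le
    rw [h7]
    calc Real.exp (1 - Real.pi / 2 * |w.im|) * Real.Gamma σ * ((Real.pi / 2) ^ σ * (1 + v) ^ σ)
        ≤ (Real.exp 1 * Real.exp (-v)) * Real.Gamma σ * ((Real.pi / 2) ^ σ * (1 + v) ^ M) := by
          gcongr
      _ = _ := by rw [hC1]; ring
  have hm : (m : ℝ) + 1 ≤ L * (1 + v) := by
    have h7 := hylow m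
    have h8 : (m : ℝ) ≤ (v + b) / a := by
      rw [le_div_iff₀ hapos]; nlinarith
    have h9 : (v + b) / a + 1 ≤ L * (1 + v) := by
      rw [hL, add_mul, one_mul, div_mul_eq_mul_div]
      have : (v + b) / a ≤ (1 + b) * (1 + v) / a := by
        apply div_le_div_of_nonneg_right _ hapos.le
        nlinarith
      linarith
    linarith
  rw [norm_inv, ← one_div, le_div_iff₀ (norm_pos_iff.2 h3)]
  calc B * ((m : ℝ) + 1) ^ K * ‖Complex.Gamma w‖
      ≤ |B| * (L * (1 + v)) ^ K * (C1 * (1 + v) ^ M * Real.exp (-v)) := by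
        gcongr
        exact le_abs_self B
    _ = |B| * L ^ K * C1 * Real.exp 1 * ((1 + v) ^ (K + M) * Real.exp (-(1 + v))) := by
        have : Real.exp (-v) = Real.exp 1 * Real.exp (-(1 + v)) := by
          rw [← Real.exp_add]; congr 1; ring
        rw [this, mul_pow, pow_add]; ring
    _ ≤ 1 := h1.le

end Pool.Agent.H731R3.GA
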