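import Mathlib

set_option autoImplicit false

namespace Pool.Agent.H731R3.GA

open Filter Topology

lemma mv1 (p : MvPolynomial (Fin 1) ℂ) : ∃ q : Polynomial ℂ,
    (∀ x, MvPolynomial.eval ![x] p = q.eval x) ∧ (p ≠ 0 → q ≠ 0) := by
  have h : ∀ x, MvPolynomial.eval ![x] p =
      (MvPolynomial.aeval (fun _ : Fin 1 => (Polynomial.X : Polynomial ℂ)) p).eval x := by
    intro x
    induction p using MvPolynomial.induction_on with
    | C a => simp
    | add p q hp hq => simp [hp, hq]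
    | mul_X p i hp =>
      simp only [map_mul, MvPolynomial.eval_X, MvPolynomial.aeval_X, Polynomial.eval_mul,
        Polynomial.eval_X, hp]
      congr 1
      fin_cases i
      rfl
  refine ⟨_, h, fun hp hq => hp ?_⟩
  apply MvPolynomial.funext
  intro x
  have hx : x = ![x 0] := by
    funext i; fin_cases i; rfl
  rw [hx, h, hq]
  simp

lemma poly_upper (q : Polynomial ℂ) : ∃ (C : ℝ) (D : ℕ), 0 ≤ C ∧ ∀ m : ℕ,
    ‖q.eval (-(m : ℂ))‖ ≤ C * ((m : ℝ) + 1) ^ D := by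
  refine ⟨∑ i ∈ Finset.range (q.natDegree + 1), ‖q.coeff i‖, q.natDegree,
    Finset.sum_nonneg fun _ _ => norm_nonneg _, fun m => ?_⟩
  rw [Polynomial.eval_eq_sum_range, Finset.sum_mul]
  refine (norm_sum_le _ _).trans (Finset.sum_le_sum fun i hi => ?_)
  rw [norm_mul, norm_pow, norm_neg, Complex.norm_natCast]
  have hi' : i ≤ q.natDegree := by have := Finset.mem_range.1 hi; omega
  have h1 : (m : ℝ) ^ i ≤ ((m : ℝ) + 1) ^ q.natDegree := by
    calc (m : ℝ) ^ i ≤ ((m : ℝ) + 1) ^ i := by gcongr; linarith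
      _ ≤ _ := pow_le_pow_right₀ (by have : (0 : ℝ) ≤ m := Nat.cast_nonneg m; linarith) hi'
  gcongr

lemma poly_lower (q : Polynomial ℂ) (hq : q ≠ 0) : ∃ ε : ℝ, 0 < ε ∧ ∀ᶠ m : ℕ in atTop,
    ε ≤ ‖q.eval (-(m : ℂ))‖ := by
  by_cases hd : 0 < q.degree
  · refine ⟨1, one_pos, ?_⟩
    have hz : Tendsto (fun m : ℕ => ‖(-(m : ℂ))‖) atTop atTop := by
      simp only [norm_neg, Complex.norm_natCast]
      exact tendsto_natCast_atTop_atTop
    have := Polynomial.tendsto_norm_atTop q hd hz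
    exact this.eventually_ge_atTop 1
  · have hc := Polynomial.eq_C_of_degree_le_zero (not_lt.1 hd)
    have h0 : q.coeff 0 ≠ 0 := by
      intro h; apply hq; rw [hc, h, map_zero]
    refine ⟨‖q.coeff 0‖, norm_pos_iff.2 h0, Eventually.of_forall fun m => ?_⟩
    rw [hc]; simp

lemma poly_contra (P : Polynomial (MvPolynomial (Fin 1) ℂ)) (hP : P ≠ 0) (u : ℕ → ℂ)
    (h0 : ∀ᶠ m : ℕ in atTop,
      Polynomial.eval₂ (MvPolynomial.eval ![-(m : ℂ)]) (u m) P = 0)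
    (hbig : ∀ (K : ℕ) (B : ℝ), ∃ᶠ m : ℕ in atTop, B * ((m : ℝ) + 1) ^ K ≤ ‖u m‖) : False := by
  set J := P.natDegree with hJ
  have hlc : P.coeff J ≠ 0 := by rw [hJ]; exact Polynomial.leadingCoeff_ne_zero.2 hP
  choose q hq1 hq2 using mv1
  obtain ⟨ε, hε, hlow⟩ := poly_lower (q (P.coeff J)) (hq2 _ hlc)
  choose C D hC hup using poly_upper
  set C0 : ℝ := ∑ j ∈ Finset.range J, C (q (P.coeff j)) with hC0
  set D0 : ℕ := ∑ j ∈ Finset.range J, D (q (P.coeff j)) with hD0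
  have hC0n : 0 ≤ C0 := Finset.sum_nonneg fun j _ => hC _
  set B : ℝ := (C0 + 1) / ε + 1 with hB
  have hBpos : 0 < B := by positivity
  have hex := (hbig D0 B).and_eventually (h0.and hlow)
  obtain ⟨m, hm1, hm2, hm3⟩ := hex.exists
  have hm0 : (0 : ℝ) ≤ m := Nat.cast_nonneg m
  have hpow : (1 : ℝ) ≤ ((m : ℝ) + 1) ^ D0 := one_le_pow₀ (by linarith)
  have hu1 : 1 ≤ ‖u m‖ := by
    refine le_trans ?_ hm1
    have : 1 ≤ B := by rw [hB]; have : 0 ≤ (C0 + 1) / ε := by positivity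
                       linarith
    nlinarith
  rw [Polynomial.eval₂_eq_sum_range, Finset.sum_range_succ, ← hJ] at hm2
  have hcoef : ∀ j, MvPolynomial.eval ![-(m : ℂ)] (P.coeff j) = (q (P.coeff j)).eval (-(m : ℂ)) :=
    fun j => hq1 _ _
  simp only [hcoef] at hm2
  have h1 : ‖(q (P.coeff J)).eval (-(m : ℂ)) * u m ^ J‖ ≤
      ∑ j ∈ Finset.range J, ‖(q (P.coeff j)).eval (-(m : ℂ)) * u m ^ j‖ := by
    have : (q (P.coeff J)).eval (-(m : ℂ)) * u m ^ J =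
        -∑ j ∈ Finset.range J, (q (P.coeff j)).eval (-(m : ℂ)) * u m ^ j := by
      linear_combination hm2
    rw [this, norm_neg]
    exact norm_sum_le _ _
  rcases Nat.eq_zero_or_pos J with hJ0 | hJ0
  · rw [hJ0] at h1 hm3
    simp only [Finset.range_zero, Finset.sum_empty, pow_zero, mul_one] at h1
    linarith
  · have h2 : ∑ j ∈ Finset.range J, ‖(q (P.coeff j)).eval (-(m : ℂ)) * u m ^ j‖ ≤
        C0 * ((m : ℝ) + 1) ^ D0 * ‖u m‖ ^ (J - 1) := by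
      rw [hC0, Finset.sum_mul, Finset.sum_mul]
      refine Finset.sum_le_sum fun j hj => ?_
      rw [norm_mul, norm_pow]
      have hj' : j < J := Finset.mem_range.1 hj
      have h3 := hup (q (P.coeff j)) m
      have h4 : ((m : ℝ) + 1) ^ D (q (P.coeff j)) ≤ ((m : ℝ) + 1) ^ D0 := by
        apply pow_le_pow_right₀ (by linarith)
        exact Finset.single_le_sum (f := fun j => D (q (P.coeff j))) (fun _ _ => Nat.zero_le _) hj
      have h5 : ‖u m‖ ^ j ≤ ‖u m‖ ^ (J - 1) := pow_le_pow_right₀ hu1 (by omega)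
      have h6 := hC (q (P.coeff j))
      calc ‖(q (P.coeff j)).eval (-(m : ℂ))‖ * ‖u m‖ ^ j
          ≤ (C (q (P.coeff j)) * ((m : ℝ) + 1) ^ D (q (P.coeff j))) * ‖u m‖ ^ (J - 1) := by gcongr
        _ ≤ _ := by gcongr
    rw [norm_mul, norm_pow] at h1
    have h3 : ‖u m‖ ^ J = ‖u m‖ * ‖u m‖ ^ (J - 1) := by
      rw [← pow_succ']; congr 1; omega
    have hupos : 0 < ‖u m‖ ^ (J - 1) := by positivity
    have h4 : ε * ‖u m‖ * ‖u m‖ ^ (J - 1) ≤ C0 * ((m : ℝ) + 1) ^ D0 * ‖u m‖ ^ (J - 1) := by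
      calc ε * ‖u m‖ * ‖u m‖ ^ (J - 1) = ε * ‖u m‖ ^ J := by rw [h3]; ring
        _ ≤ ‖(q (P.coeff J)).eval (-(m : ℂ))‖ * ‖u m‖ ^ J := by gcongr
        _ ≤ _ := h1.trans h2
    have h5 : ε * ‖u m‖ ≤ C0 * ((m : ℝ) + 1) ^ D0 := le_of_mul_le_mul_right h4 hupos
    have h6 : ε * (B * ((m : ℝ) + 1) ^ D0) ≤ ε * ‖u m‖ := by gcongr
    have h7 : ε * B = C0 + 1 + ε := by rw [hB]; field_simp
    nlinarith

/-- the reversed version -/
lemma poly_contra' (P : Polynomial (MvPolynomial (Fin 1) ℂ)) (hP : P ≠ 0) (u : ℕ → ℂ)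
    (hu : ∀ᶠ m : ℕ in atTop, u m ≠ 0)
    (h0 : ∀ᶠ m : ℕ in atTop,
      Polynomial.eval₂ (MvPolynomial.eval ![-(m : ℂ)]) (u m) P = 0)
    (hbig : ∀ (K : ℕ) (B : ℝ), ∃ᶠ m : ℕ in atTop, B * ((m : ℝ) + 1) ^ K ≤ ‖(u m)⁻¹‖) : False := by
  refine poly_contra P.reverse ?_ (fun m => (u m)⁻¹) ?_ hbig
  · intro h
    exact hP (Polynomial.reverse_eq_zero.1 h)
  · filter_upwards [hu, h0] with m h1 h2
    let _ : Invertible (u m) := invertibleOfNonzero h1
    have h3 := (Polynomial.eval₂_reverse_eq_zero_iff (MvPolynomial.eval ![-(m : ℂ)]) (u m) P).2 h2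
    rwa [invOf_eq_inv] at h3

end Pool.Agent.H731R3.GA
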