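import Pool.Agent.H731R3.GA.Main
import Pool.Agent.H731R3.GA.Grow2
import Pool.Agent.H731R3.GA.Poly

set_option autoImplicit false

namespace Pool.Agent.H731R3.GA

open MvPolynomial Filter Topology

lemma ev_ne (α β : ℂ) (h : ¬ ((∃ q : ℚ, α = q) ∧ ∃ q : ℚ, β = q)) :
    ∀ᶠ m : ℕ in atTop, Complex.Gamma (β - α * m) ≠ 0 := by
  by_contra hno
  have hfr : ∃ᶠ m : ℕ in atTop, Complex.Gamma (β - α * m) = 0 := by
    intro h'
    exact hno h'
  rw [frequently_atTop] at hfr
  obtain ⟨m1, _, h1⟩ := hfr 0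
  obtain ⟨m2, h12, h2⟩ := hfr (m1 + 1)
  obtain ⟨k1, hk1⟩ := (Complex.Gamma_eq_zero_iff _).1 h1
  obtain ⟨k2, hk2⟩ := (Complex.Gamma_eq_zero_iff _).1 h2
  have h3 : α * ((m2 : ℂ) - m1) = k2 - k1 := by linear_combination hk1 - hk2
  have h4 : ((m2 : ℂ) - m1) ≠ 0 := by
    intro h0
    have : (m2 : ℂ) = m1 := sub_eq_zero.1 h0
    have : m2 = m1 := by exact_mod_cast this
    omega
  have h5 : α = ((k2 : ℂ) - k1) / ((m2 : ℂ) - m1) := by
    rw [eq_div_iff h4]; exact h3
  have hαq : α = (((k2 : ℚ) - k1) / ((m2 : ℚ) - m1) : ℚ) := by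
    push_cast; exact h5
  refine h ⟨⟨_, hαq⟩, ⟨-(k1 : ℚ) + ((k2 : ℚ) - k1) / ((m2 : ℚ) - m1) * m1, ?_⟩⟩
  push_cast
  rw [← h5]
  linear_combination hk1

lemma diff_eval_one (c : MvPolynomial (Fin 1) ℂ) : Differentiable ℂ fun z : ℂ => eval ![z] c := by
  have : (fun z : ℂ => eval ![z] c) = fun z => ∑ s ∈ c.support, c.coeff s * z ^ (s 0) := by
    funext z
    rw [MvPolynomial.eval_eq']
    refine Finset.sum_congr rfl fun s _ => ?_
    simp
  rw [this]
  apply Differentiable.fun_sum
  intro s _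
  exact (differentiable_const _).mul (differentiable_id.pow _)

lemma clear_den (E : ℕ) (c : ℕ → ℂ) (x : ℂ) (hx : x ≠ 0) :
    (∑ l ∈ Finset.range (E + 1), c l * (x⁻¹) ^ (E - l)) * x ^ E =
      ∑ l ∈ Finset.range (E + 1), c l * x ^ l := by
  rw [Finset.sum_mul]
  refine Finset.sum_congr rfl fun k hk => ?_
  have hk' : k ≤ E := by have := Finset.mem_range.1 hk; omega
  rw [mul_assoc]
  congr 1
  rw [inv_pow, inv_mul_eq_div, div_eq_iff (pow_ne_zero _ hx), ← pow_add]
  congr 1
  omega

lemma triple_zeros (α β : ℂ) (hα : α ≠ 0) (h : ¬ ((∃ q : ℚ, α = q) ∧ ∃ q : ℚ, β = q))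
    (P : MvPolynomial (Fin 3) ℂ) (hP : P ≠ 0) :
    {s : ℂ | eval ![Complex.Gamma s, Complex.Gamma (α * s + β), s] P = 0}.Countable := by
  set Q := finSuccEquiv ℂ 2 P with hQ
  have hQ0 : Q ≠ 0 := by
    rw [hQ]
    exact (map_ne_zero_iff _ (finSuccEquiv ℂ 2).injective).2 hP
  set d := Q.natDegree with hd
  have hlc : Q.coeff d ≠ 0 := by
    rw [hd]; exact Polynomial.leadingCoeff_ne_zero.2 hQ0
  let R : ℕ → Polynomial (MvPolynomial (Fin 1) ℂ) := fun k => finSuccEquiv ℂ 1 (Q.coeff k)
  have hRd : R d ≠ 0 := (map_ne_zero_iff _ (finSuccEquiv ℂ 1).injective).2 hlc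
  obtain ⟨E, hE⟩ : ∃ E, ∀ k ≤ d, (R k).natDegree ≤ E := by
    refine ⟨∑ k ∈ Finset.range (d + 1), (R k).natDegree, fun k hk => ?_⟩
    exact Finset.single_le_sum (f := fun k => (R k).natDegree) (fun _ _ => Nat.zero_le _)
      (Finset.mem_range.2 (by omega))
  let H : ℕ → ℂ → ℂ := fun k s => ∑ l ∈ Finset.range (E + 1),
    eval ![s] ((R k).coeff l) * ((Complex.Gamma (α * s + β))⁻¹) ^ (E - l)
  let g : ℂ → ℂ := fun s => ∑ k ∈ Finset.range (d + 1),
    H k s * ((Complex.Gamma s)⁻¹) ^ (d - k)
  have hvd : Differentiable ℂ fun s : ℂ => (Complex.Gamma (α * s + β))⁻¹ :=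
    Complex.differentiable_one_div_Gamma.comp
      ((differentiable_id.const_mul α).add (differentiable_const β))
  have hHd : ∀ k, Differentiable ℂ (H k) := by
    intro k
    apply Differentiable.fun_sum
    intro l _
    exact (diff_eval_one _).mul (hvd.pow _)
  have hgd : Differentiable ℂ g := by
    apply Differentiable.fun_sum
    intro k _
    exact (hHd k).mul (Complex.differentiable_one_div_Gamma.pow _)
  have key1 : ∀ k ≤ d, ∀ s, Complex.Gamma (α * s + β) ≠ 0 →
      H k s * (Complex.Gamma (α * s + β)) ^ E =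
        Polynomial.eval₂ (eval ![s]) (Complex.Gamma (α * s + β)) (R k) := by
    intro k hk s hs
    have h1 := clear_den E (fun l => eval ![s] ((R k).coeff l)) _ hs
    rw [Polynomial.eval₂_eq_sum_range' (eval ![s]) (n := E + 1) (by have := hE k hk; omega)]
    exact h1
  have hgm : ∃ s, g s ≠ 0 := by
    by_contra hno
    push Not at hno
    have hzero : ∀ᶠ m : ℕ in atTop,
        Polynomial.eval₂ (eval ![-(m : ℂ)]) (Complex.Gamma (β - α * m)) (R d) = 0 := by
      filter_upwards [ev_ne α β h] with m hm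
      have h1 : g (-(m : ℂ)) = H d (-(m : ℂ)) := by
        simp only [g]
        rw [Finset.sum_eq_single d]
        · simp
        · intro k hk hkd
          have : k < d := by
            have := Finset.mem_range.1 hk
            omega
          rw [Complex.Gamma_neg_nat_eq_zero, inv_zero, zero_pow (by omega), mul_zero]
        · intro h; simp at h
      have h2 : α * (-(m : ℂ)) + β = β - α * m := by ring
      have h3 := key1 d le_rfl (-(m : ℂ)) (by rw [h2]; exact hm)
      rw [h2] at h3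
      rw [← h3, ← h1, hno, zero_mul]
    rcases lt_trichotomy α.re 0 with hr | hr | hr
    · refine poly_contra (R d) hRd _ hzero ?_
      intro K B
      have h1 := grow_right β (-α) (by simpa using hr) K B
      refine Eventually.frequently (h1.mono fun m hm => ?_)
      have h2 : β + -α * (m : ℂ) = β - α * m := by ring
      rwa [h2] at hm
    · refine poly_contra' (R d) hRd _ (ev_ne α β h) hzero ?_
      intro K B
      exact (grow_vert β α hr hα (ev_ne α β h) K B).frequently
    · refine poly_contra' (R d) hRd _ (ev_ne α β h) hzero ?_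
      intro K B
      refine grow_left β α hr (fun hh => h ?_) K B
      obtain ⟨⟨k1, h1⟩, ⟨k2, h2⟩⟩ := hh
      exact ⟨⟨k1, by rw [h1]; push_cast; rfl⟩, ⟨k2, by rw [h2]; push_cast; rfl⟩⟩
  obtain ⟨x, hx⟩ := hgm
  have hz := entire_zeros g hgd x hx
  have hpole : {z : ℂ | Complex.Gamma z = 0}.Countable := by
    have : {z : ℂ | Complex.Gamma z = 0} ⊆ Set.range fun m : ℕ => -(m : ℂ) := by
      intro z hz
      obtain ⟨m, hm⟩ := Complex.Gamma_eq_zero_iff z |>.1 hz
      exact ⟨m, hm.symm⟩
    exact (Set.countable_range _).mono this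
  have hpole2 : {z : ℂ | Complex.Gamma (α * z + β) = 0}.Countable := by
    refine Set.Countable.preimage_of_injOn (f := fun z => α * z + β)
      (s := {z : ℂ | Complex.Gamma z = 0}) hpole ?_
    intro a _ b _ hab
    have : α * a = α * b := by simpa using hab
    exact mul_left_cancel₀ hα this
  refine ((hz.union hpole).union hpole2).mono ?_
  intro z hz0
  by_cases hG2 : Complex.Gamma (α * z + β) = 0
  · exact Or.inr hG2
  left
  by_cases hG : Complex.Gamma z = 0
  · exact Or.inr hG
  · left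
    show g z = 0
    have h1 : eval ![Complex.Gamma z, Complex.Gamma (α * z + β), z] P =
        Polynomial.eval (Complex.Gamma z)
          (Polynomial.map (eval ![Complex.Gamma (α * z + β), z]) Q) :=
      MvPolynomial.eval_eq_eval_mv_eval' ![Complex.Gamma (α * z + β), z] (Complex.Gamma z) P
    have h2 : eval ![Complex.Gamma z, Complex.Gamma (α * z + β), z] P = 0 := hz0
    rw [h1, Polynomial.eval_map, Polynomial.eval₂_eq_sum_range] at h2
    have h5 : ∀ k ≤ d, eval ![Complex.Gamma (α * z + β), z] (Q.coeff k) =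
        H k z * (Complex.Gamma (α * z + β)) ^ E := by
      intro k hk
      rw [key1 k hk z hG2, ← Polynomial.eval_map]
      exact MvPolynomial.eval_eq_eval_mv_eval' ![z] (Complex.Gamma (α * z + β)) (Q.coeff k)
    have h3 : g z * (Complex.Gamma z) ^ d * (Complex.Gamma (α * z + β)) ^ E = 0 := by
      have h6 := clear_den d (fun k => H k z) _ hG
      have h7 : g z * (Complex.Gamma z) ^ d =
        ∑ l ∈ Finset.range (d + 1), H l z * Complex.Gamma z ^ l := h6
      rw [h7, Finset.sum_mul, ← h2]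
      refine Finset.sum_congr rfl fun k hk => ?_
      have hk' : k ≤ d := by have := Finset.mem_range.1 hk; omega
      rw [h5 k hk']
      ring
    rcases mul_eq_zero.1 h3 with h4 | h4
    · rcases mul_eq_zero.1 h4 with h4 | h4
      · exact h4
      · exact absurd h4 (pow_ne_zero _ hG)
    · exact absurd h4 (pow_ne_zero _ hG2)

/-- `Γ(s)`, `Γ(αs+β)`, `s` are algebraically independent for all but countably many `s` -/
theorem triple_countable (α β : ℂ) (hα : α ≠ 0) (h : ¬ ((∃ q : ℚ, α = q) ∧ ∃ q : ℚ, β = q)) :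
    {s : ℂ | ¬ AlgebraicIndependent ℚ
      ![Complex.Gamma s, Complex.Gamma (α * s + β), s]}.Countable := by
  have hMc : Countable (MvPolynomial (Fin 3) ℚ) := by
    rw [← Cardinal.mk_le_aleph0_iff]
    refine (MvPolynomial.cardinalMk_le_max).trans ?_
    have h1 : Cardinal.mk ℚ ≤ Cardinal.aleph0 := Cardinal.mk_le_aleph0_iff.2 inferInstance
    have h2 : Cardinal.mk (Fin 3) ≤ Cardinal.aleph0 := Cardinal.mk_le_aleph0_iff.2 inferInstance
    exact max_le (max_le h1 h2) le_rfl
  have hsub : {s : ℂ | ¬ AlgebraicIndependent ℚ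
      ![Complex.Gamma s, Complex.Gamma (α * s + β), s]} ⊆
      ⋃ P : {P : MvPolynomial (Fin 3) ℚ // P ≠ 0},
        {z : ℂ | eval ![Complex.Gamma z, Complex.Gamma (α * z + β), z]
          (MvPolynomial.map (algebraMap ℚ ℂ) P.1) = 0} := by
    intro z hz
    have hz' : ¬ AlgebraicIndependent ℚ
      ![Complex.Gamma z, Complex.Gamma (α * z + β), z] := hz
    rw [algebraicIndependent_iff] at hz'
    push Not at hz'
    obtain ⟨P, hP, hP0⟩ := hz'
    refine Set.mem_iUnion.2 ⟨⟨P, hP0⟩, ?_⟩
    show eval ![Complex.Gamma z, Complex.Gamma (α * z + β), z]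
      (MvPolynomial.map (algebraMap ℚ ℂ) P) = 0
    rw [MvPolynomial.eval_map, ← MvPolynomial.aeval_def]
    exact hP
  refine Set.Countable.mono hsub (Set.countable_iUnion fun P => triple_zeros α β hα h _ ?_)
  intro h
  exact P.2 ((MvPolynomial.map_injective _ (algebraMap ℚ ℂ).injective) (by rw [h, map_zero]))

/-- lower bound 3 for the transcendence degree along a line -/
theorem line_countable {n : ℕ} (a b : Fin n → ℂ) (i j : Fin n) (hi : a i ≠ 0) (hj : a j ≠ 0)
    (h : ¬ ∃ q q' : ℚ, a j = q * a i ∧ b j = q * b i + q') :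
    {t : ℂ | Algebra.trdeg ℚ (gammaField fun k => a k * t + b k) < 3}.Countable := by
  set α := a j / a i with hα
  set β := b j - α * b i with hβ
  have hα0 : α ≠ 0 := div_ne_zero hj hi
  have hq : ¬ ((∃ q : ℚ, α = q) ∧ ∃ q : ℚ, β = q) := by
    rintro ⟨⟨q, hq⟩, ⟨q', hq'⟩⟩
    refine h ⟨q, q', ?_, ?_⟩
    · rw [← hq, hα]; field_simp
    · rw [← hq, ← hq', hβ]; ring
  have hc := triple_countable α β hα0 hq
  have hpre : {t : ℂ | ¬ AlgebraicIndependent ℚ
      ![Complex.Gamma (a i * t + b i), Complex.Gamma (α * (a i * t + b i) + β),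
        a i * t + b i]}.Countable := by
    refine Set.Countable.preimage_of_injOn (f := fun t => a i * t + b i)
      (s := {s : ℂ | ¬ AlgebraicIndependent ℚ
      ![Complex.Gamma s, Complex.Gamma (α * s + β), s]}) hc ?_
    intro x _ y _ hxy
    have : a i * x = a i * y := by simpa using hxy
    exact mul_left_cancel₀ hi this
  refine hpre.mono ?_
  intro t ht hind
  have hαa : ∀ t, α * (a i * t + b i) + β = a j * t + b j := by
    intro t
    rw [hβ, hα]; field_simp; ring
  rw [hαa] at hind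
  have hmem : ∀ k, ![Complex.Gamma (a i * t + b i), Complex.Gamma (a j * t + b j),
        a i * t + b i] k ∈ gammaField fun k => a k * t + b k := by
    intro k
    fin_cases k
    · exact IntermediateField.subset_adjoin _ _ (Or.inr ⟨i, rfl⟩)
    · exact IntermediateField.subset_adjoin _ _ (Or.inr ⟨j, rfl⟩)
    · exact IntermediateField.subset_adjoin _ _ (Or.inl ⟨i, rfl⟩)
  let x' : Fin 3 → gammaField fun k => a k * t + b k := fun k => ⟨_, hmem k⟩
  have hx' : AlgebraicIndependent ℚ x' :=
    (AlgHom.algebraicIndependent_iff (gammaField fun k => a k * t + b k).val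
      Subtype.val_injective).1 hind
  have h3 := hx'.cardinalMk_le_trdeg
  rw [Cardinal.mk_fin] at h3
  have ht' : Algebra.trdeg ℚ (gammaField fun k => a k * t + b k) < 3 := ht
  exact absurd h3 (not_le.2 (by exact_mod_cast ht'))

end Pool.Agent.H731R3.GA
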