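import Pool.Agent.H731R3.GA.Ray
import Pool.Agent.H731R3.GA.Triple

set_option autoImplicit false

namespace Pool.Agent.H731R3.GA

open Filter Topology MvPolynomial

/-- a direction off finitely many lines -/
lemma exists_dir (S : Finset ℂ) (hS : ∀ x ∈ S, x ≠ 0) :
    ∃ ω : ℂ, ω ≠ 0 ∧ ∀ x ∈ S, (x * ω).re ≠ 0 ∧ (x * ω).im ≠ 0 := by
  have hbad : (⋃ x ∈ S, ({t : ℝ | (x * (1 + t * Complex.I)).re = 0} ∪
      {t : ℝ | (x * (1 + t * Complex.I)).im = 0})).Finite := by
    refine Set.Finite.biUnion S.finite_toSet fun x hx => Set.Finite.union ?_ ?_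
    · apply Set.Subsingleton.finite
      intro t ht u hu
      have ht' : x.re - x.im * t = 0 := by
        have : (x * (1 + t * Complex.I)).re = 0 := ht
        simpa using this
      have hu' : x.re - x.im * u = 0 := by
        have : (x * (1 + u * Complex.I)).re = 0 := hu
        simpa using this
      have him : x.im ≠ 0 := by
        intro h0
        apply hS x hx
        apply Complex.ext
        · rw [h0] at ht'; simpa using ht'
        · simpa using h0
      have : x.im * t = x.im * u := by linarith
      exact mul_left_cancel₀ him this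
    · apply Set.Subsingleton.finite
      intro t ht u hu
      have ht' : x.re * t + x.im = 0 := by
        have : (x * (1 + t * Complex.I)).im = 0 := ht
        simpa using this
      have hu' : x.re * u + x.im = 0 := by
        have : (x * (1 + u * Complex.I)).im = 0 := hu
        simpa using this
      have hre : x.re ≠ 0 := by
        intro h0
        apply hS x hx
        apply Complex.ext
        · simpa using h0
        · rw [h0] at ht'; simpa using ht'
      have : x.re * t = x.re * u := by linarith
      exact mul_left_cancel₀ hre this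
  obtain ⟨t, ht⟩ := (Set.Finite.infinite_compl hbad).nonempty
  refine ⟨1 + t * Complex.I, ?_, fun x hx => ?_⟩
  · intro h
    have := congrArg Complex.re h
    simp at this
  · have h1 : t ∉ ({t : ℝ | (x * (1 + t * Complex.I)).re = 0} ∪
      {t : ℝ | (x * (1 + t * Complex.I)).im = 0}) := by
      intro h2
      exact ht (Set.mem_biUnion hx h2)
    exact ⟨fun h => h1 (Or.inl h), fun h => h1 (Or.inr h)⟩

/-- the point `(s, Γ(a_i s + b_i))` -/
noncomputable def pt {n : ℕ} (a b : Fin n → ℂ) (s : ℂ) : Option (Fin n) → ℂ :=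
  fun o => o.elim s fun i => Complex.Gamma (a i * s + b i)

lemma norm_ratio {ι : Type} [Fintype ι] (Y : ι → ℂ) (hY : ∀ o, Y o ≠ 0) (k l : ι →₀ ℕ) :
    ‖(∏ o, Y o ^ k o) / ∏ o, Y o ^ l o‖ =
      Real.exp (∑ o, ((k o : ℝ) - l o) * Real.log ‖Y o‖) := by
  have h : ∀ k : ι →₀ ℕ, ‖∏ o, Y o ^ k o‖ = Real.exp (∑ o, (k o : ℝ) * Real.log ‖Y o‖) := by
    intro k
    rw [norm_prod, Real.exp_sum]
    refine Finset.prod_congr rfl fun o _ => ?_
    rw [norm_pow, Real.exp_nat_mul, Real.exp_log (norm_pos_iff.2 (hY o))]
  rw [norm_div, h, h, ← Real.exp_sub, ← Finset.sum_sub_distrib]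
  congr 1
  refine Finset.sum_congr rfl fun o _ => ?_
  ring

lemma dom {n : ℕ} (a b : Fin n → ℂ) (ha : LinearIndependent ℚ a)
    (P : MvPolynomial (Option (Fin n)) ℂ) (hP : P ≠ 0) :
    ∃ s : ℂ, (∀ i, Complex.Gamma (a i * s + b i) ≠ 0) ∧ eval (pt a b s) P ≠ 0 := by
  classical
  by_contra hno
  push Not at hno
  -- choice of the direction
  let lam : (Option (Fin n) →₀ ℕ) → (Option (Fin n) →₀ ℕ) → ℂ := fun k l =>
    ∑ i, ((k (some i) : ℂ) - l (some i)) * a i
  have hlam : ∀ k l, lam k l = 0 → ∀ i, k (some i) = l (some i) := by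
    intro k l h i
    have h1 := Fintype.linearIndependent_iff.1 ha (fun i => (k (some i) : ℚ) - l (some i)) (by
      rw [← h]
      refine Finset.sum_congr rfl fun i _ => ?_
      rw [Rat.smul_def]; push_cast; ring) i
    have h2 : (k (some i) : ℚ) = l (some i) := sub_eq_zero.1 h1
    exact_mod_cast h2
  let S : Finset ℂ := (((P.support ×ˢ P.support).image fun p => lam p.1 p.2).filter (· ≠ 0)) ∪
    Finset.univ.image a
  have hS : ∀ x ∈ S, x ≠ 0 := by
    intro x hx
    rcases Finset.mem_union.1 hx with h | h
    · exact (Finset.mem_filter.1 h).2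
    · obtain ⟨i, -, rfl⟩ := Finset.mem_image.1 h
      exact ha.ne_zero i
  obtain ⟨ω, hω0, hω⟩ := exists_dir S hS
  have hray : ∀ i, ∃ C : ℝ, ∀ᶠ m : ℕ in atTop,
      Complex.Gamma (b i + a i * ω * m) ≠ 0 ∧
      |Real.log ‖Complex.Gamma (b i + a i * ω * m)‖ - (a i * ω).re * (m * Real.log m)| ≤ C * m := by
    intro i
    have h1 := hω (a i) (Finset.mem_union_right _ (Finset.mem_image_of_mem a (Finset.mem_univ i)))
    exact ray_bd (b i) (a i * ω) h1.1 h1.2
  choose C hC using hray
  let W : (Option (Fin n) →₀ ℕ) → ℝ := fun k => ∑ i, (k (some i) : ℝ) * (a i * ω).re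
  have hWlam : ∀ k l, W k - W l = (lam k l * ω).re := by
    intro k l
    simp only [W, lam]
    rw [← Finset.sum_sub_distrib, Finset.sum_mul, Complex.re_sum]
    refine Finset.sum_congr rfl fun i _ => ?_
    have : ((k (some i) : ℂ) - l (some i)) * a i * ω =
        (((k (some i) : ℝ) - l (some i) : ℝ) : ℂ) * (a i * ω) := by push_cast; ring
    rw [this, Complex.re_ofReal_mul]
    ring
  have hsep : ∀ k ∈ P.support, ∀ l ∈ P.support, W k = W l → ∀ i, k (some i) = l (some i) := by
    intro k hk l hl h
    apply hlam k l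
    by_contra hne
    have hmem : lam k l ∈ S := by
      refine Finset.mem_union_left _ (Finset.mem_filter.2 ⟨?_, hne⟩)
      exact Finset.mem_image.2 ⟨(k, l), Finset.mem_product.2 ⟨hk, hl⟩, rfl⟩
    have h1 := (hω _ hmem).1
    rw [← hWlam, h, sub_self] at h1
    exact h1 rfl
  obtain ⟨q, hq, hmax⟩ := Finset.exists_max_image P.support (fun k => toLex (W k, k none))
    (MvPolynomial.support_nonempty.2 hP)
  -- the sequence of points
  let Y : ℕ → Option (Fin n) → ℂ := fun m => pt a b (ω * m)
  have hYn : ∀ m, Y m none = ω * m := fun m => rfl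
  have hYs : ∀ m i, Y m (some i) = Complex.Gamma (b i + a i * ω * m) := by
    intro m i
    show Complex.Gamma (a i * (ω * m) + b i) = _
    congr 1; ring
  have hev : ∀ᶠ m : ℕ in atTop, (∀ o, Y m o ≠ 0) ∧ (1 : ℝ) ≤ m ∧
      ∀ i, |Real.log ‖Y m (some i)‖ - (a i * ω).re * (m * Real.log m)| ≤ C i * m := by
    have h1 : ∀ᶠ m : ℕ in atTop, ∀ i, Complex.Gamma (b i + a i * ω * m) ≠ 0 ∧
      |Real.log ‖Complex.Gamma (b i + a i * ω * m)‖ - (a i * ω).re * (m * Real.log m)| ≤ C i * m :=
      eventually_all.2 hC
    filter_upwards [h1, eventually_ge_atTop 1] with m h2 h3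
    have h3' : (1 : ℝ) ≤ m := by exact_mod_cast h3
    refine ⟨?_, h3', ?_⟩
    · intro o
      rcases o with _ | i
      · rw [hYn]
        refine mul_ne_zero hω0 ?_
        have : m ≠ 0 := by omega
        exact_mod_cast this
      · rw [hYs]; exact (h2 i).1
    · intro i
      rw [hYs]; exact (h2 i).2
  -- the ratios tend to zero
  have hexp : ∀ k ∈ P.support, k ≠ q →
      Tendsto (fun m : ℕ => ∑ o, ((k o : ℝ) - q o) * Real.log ‖Y m o‖) atTop atBot := by
    intro k hk hkq
    have hle := hmax k hk
    rw [Prod.Lex.toLex_le_toLex] at hle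
    have hlogn : ∀ m : ℕ, (1 : ℝ) ≤ m → Real.log ‖Y m none‖ = Real.log ‖ω‖ + Real.log m := by
      intro m hm
      rw [hYn, norm_mul, Complex.norm_natCast, Real.log_mul (norm_ne_zero_iff.2 hω0) (by linarith)]
    rcases hle with hlt | ⟨heq, hle⟩
    · have hlt : W k < W q := hlt
      set δ := W q - W k with hδ
      have hδpos : 0 < δ := by linarith
      set D : ℝ := |(k none : ℝ) - q none| * (|Real.log ‖ω‖| + 1) +
        ∑ i, |(k (some i) : ℝ) - q (some i)| * |C i| with hD
      have hlogm : Tendsto (fun m : ℕ => Real.log (m : ℝ)) atTop atTop :=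
        Real.tendsto_log_atTop.comp tendsto_natCast_atTop_atTop
      refine tendsto_atBot_mono' atTop ?_
        (tendsto_neg_atTop_atBot.comp (tendsto_natCast_atTop_atTop (R := ℝ)))
      filter_upwards [hev, hlogm.eventually_ge_atTop ((D + 1) / δ)] with m hm hm2
      obtain ⟨-, hm1, hb⟩ := hm
      rw [div_le_iff₀ hδpos] at hm2
      simp only [Function.comp_apply]
      rw [Fintype.sum_option, hlogn m hm1]
      have hlm : 0 ≤ Real.log m := Real.log_nonneg hm1
      have hlm2 : Real.log m ≤ m :=
        (Real.log_le_sub_one_of_pos (by linarith)).trans (by linarith)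
      have h1 : ((k none : ℝ) - q none) * (Real.log ‖ω‖ + Real.log m) ≤
          |(k none : ℝ) - q none| * (|Real.log ‖ω‖| + 1) * m := by
        have h2 : |Real.log ‖ω‖ + Real.log m| ≤ (|Real.log ‖ω‖| + 1) * m := by
          refine (abs_add_le _ _).trans ?_
          rw [abs_of_nonneg hlm, add_mul, one_mul]
          have : |Real.log ‖ω‖| ≤ |Real.log ‖ω‖| * m :=
            le_mul_of_one_le_right (abs_nonneg _) hm1
          linarith
        refine (le_abs_self _).trans ?_
        rw [abs_mul, mul_assoc]
        gcongr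
      have h3 : ∑ i, ((k (some i) : ℝ) - q (some i)) * Real.log ‖Y m (some i)‖ ≤
          (W k - W q) * (m * Real.log m) +
            (∑ i, |(k (some i) : ℝ) - q (some i)| * |C i|) * m := by
        have h4 : (W k - W q) * (m * Real.log m) =
            ∑ i, ((k (some i) : ℝ) - q (some i)) * ((a i * ω).re * (m * Real.log m)) := by
          simp only [W]
          rw [← Finset.sum_sub_distrib, Finset.sum_mul]
          refine Finset.sum_congr rfl fun i _ => ?_
          ring
        rw [h4, Finset.sum_mul, ← Finset.sum_add_distrib]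
        refine Finset.sum_le_sum fun i _ => ?_
        have h5 := hb i
        have h6 : ((k (some i) : ℝ) - q (some i)) *
            (Real.log ‖Y m (some i)‖ - (a i * ω).re * (m * Real.log m)) ≤
            |(k (some i) : ℝ) - q (some i)| * |C i| * m := by
          refine (le_abs_self _).trans ?_
          rw [abs_mul, mul_assoc]
          have h7 : C i * m ≤ |C i| * m := by gcongr; exact le_abs_self _
          have h8 := h5.trans h7
          gcongr
        linarith
      have h9 : (D + 1) * m ≤ Real.log m * δ * m := by gcongr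
      have h10 : (W k - W q) * (m * Real.log m) = -(Real.log m * δ * m) := by
        rw [hδ]; ring
      rw [h10] at h3
      have h11 : D * m = |(k none : ℝ) - q none| * (|Real.log ‖ω‖| + 1) * m +
        (∑ i, |(k (some i) : ℝ) - q (some i)| * |C i|) * m := by rw [hD]; ring
      linarith
    · have heq : W k = W q := heq
      have hle : k none ≤ q none := hle
      have hsame := hsep k hk q hq heq
      have hlt : k none < q none := by
        refine lt_of_le_of_ne hle fun h => hkq ?_
        ext o
        rcases o with _ | i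
        · exact h
        · exact hsame i
      have hlogm : Tendsto (fun m : ℕ => Real.log ‖ω‖ + Real.log (m : ℝ)) atTop atTop :=
        tendsto_atTop_add_const_left _ _
          (Real.tendsto_log_atTop.comp tendsto_natCast_atTop_atTop)
      refine tendsto_atBot_mono' atTop ?_ (tendsto_neg_atTop_atBot.comp hlogm)
      filter_upwards [hev, hlogm.eventually_ge_atTop 0] with m hm hm2
      obtain ⟨-, hm1, hb⟩ := hm
      simp only [Function.comp_apply]
      rw [Fintype.sum_option, hlogn m hm1]
      have h1 : ∑ i, ((k (some i) : ℝ) - q (some i)) * Real.log ‖Y m (some i)‖ = 0 := by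
        refine Finset.sum_eq_zero fun i _ => ?_
        rw [hsame i, sub_self, zero_mul]
      rw [h1, add_zero]
      have h2 : (k none : ℝ) + 1 ≤ q none := by exact_mod_cast hlt
      nlinarith
  have hT : ∀ k ∈ P.support.erase q, Tendsto (fun m : ℕ => P.coeff k *
      ((∏ o, Y m o ^ k o) / ∏ o, Y m o ^ q o)) atTop (𝓝 0) := by
    intro k hk
    rw [Finset.mem_erase] at hk
    have h1 := Real.tendsto_exp_atBot.comp (hexp k hk.2 hk.1)
    have h2 : Tendsto (fun m : ℕ => (∏ o, Y m o ^ k o) / ∏ o, Y m o ^ q o) atTop (𝓝 0) := by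
      rw [tendsto_zero_iff_norm_tendsto_zero]
      refine h1.congr' ?_
      filter_upwards [hev] with m hm
      simp only [Function.comp_apply]
      rw [norm_ratio (Y m) hm.1]
    simpa using h2.const_mul (P.coeff k)
  have hsum := tendsto_finsetSum _ hT
  rw [Finset.sum_const_zero] at hsum
  have hconst : Tendsto (fun _ : ℕ => -P.coeff q) atTop (𝓝 0) := by
    refine hsum.congr' ?_
    filter_upwards [hev] with m hm
    have h1 : ∀ i, Complex.Gamma (a i * (ω * m) + b i) ≠ 0 := fun i => hm.1 (some i)
    have h2 := hno (ω * m) h1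
    rw [MvPolynomial.eval_eq'] at h2
    have h3 : ∑ d ∈ P.support, P.coeff d * ∏ o, Y m o ^ d o = 0 := h2
    rw [← Finset.add_sum_erase _ _ hq] at h3
    have h4 : (∏ o, Y m o ^ q o) ≠ 0 := Finset.prod_ne_zero_iff.2 fun o _ => pow_ne_zero _ (hm.1 o)
    have h5 : ∑ k ∈ P.support.erase q, P.coeff k * ((∏ o, Y m o ^ k o) / ∏ o, Y m o ^ q o) =
        (∑ k ∈ P.support.erase q, P.coeff k * ∏ o, Y m o ^ k o) / ∏ o, Y m o ^ q o := by
      rw [Finset.sum_div]
      refine Finset.sum_congr rfl fun k _ => ?_
      rw [mul_div_assoc]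
    rw [h5, div_eq_iff h4]
    linear_combination h3
  have h0 := tendsto_nhds_unique hconst tendsto_const_nhds
  exact (MvPolynomial.mem_support_iff.1 hq) (by
    have := h0.symm
    simpa using this)

lemma multi_zeros {n : ℕ} (a b : Fin n → ℂ) (ha : LinearIndependent ℚ a)
    (P : MvPolynomial (Option (Fin n)) ℂ) (hP : P ≠ 0) :
    {s : ℂ | eval (pt a b s) P = 0}.Countable := by
  classical
  obtain ⟨s0, hs0, hs1⟩ := dom a b ha P hP
  let N : ℕ := ∑ k ∈ P.support, ∑ i, k (some i)
  have hN : ∀ k ∈ P.support, ∀ i, k (some i) ≤ N := by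
    intro k hk i
    refine le_trans ?_ (Finset.single_le_sum (f := fun k => ∑ i, k (some i))
      (fun _ _ => Nat.zero_le _) hk)
    exact Finset.single_le_sum (f := fun i => k (some i)) (fun _ _ => Nat.zero_le _)
      (Finset.mem_univ i)
  let G : ℂ → ℂ := fun s => ∑ k ∈ P.support, P.coeff k * (s ^ k none *
    ∏ i, ((Complex.Gamma (a i * s + b i))⁻¹) ^ (N - k (some i)))
  have hGd : Differentiable ℂ G := by
    apply Differentiable.fun_sum
    intro k _
    refine (differentiable_const _).mul ((differentiable_id.pow _).mul ?_)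
    refine Differentiable.fun_finsetProd fun i _ => ?_
    exact (Complex.differentiable_one_div_Gamma.comp
      ((differentiable_id.const_mul (a i)).add (differentiable_const (b i)))).pow _
  have key : ∀ s, (∀ i, Complex.Gamma (a i * s + b i) ≠ 0) →
      eval (pt a b s) P = G s * ∏ i, Complex.Gamma (a i * s + b i) ^ N := by
    intro s hs
    rw [MvPolynomial.eval_eq']
    simp only [G]
    rw [Finset.sum_mul]
    refine Finset.sum_congr rfl fun k hk => ?_
    rw [Fintype.prod_option, mul_assoc, mul_assoc, ← Finset.prod_mul_distrib]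
    congr 2
    refine Finset.prod_congr rfl fun i _ => ?_
    show Complex.Gamma (a i * s + b i) ^ k (some i) = _
    rw [inv_pow, inv_mul_eq_div, eq_div_iff (pow_ne_zero _ (hs i)), ← pow_add]
    congr 1
    have := hN k hk i
    omega
  have hG0 : G s0 ≠ 0 := by
    intro h
    apply hs1
    rw [key s0 hs0, h, zero_mul]
  have hz := entire_zeros G hGd s0 hG0
  have hpole : {z : ℂ | Complex.Gamma z = 0}.Countable := by
    have : {z : ℂ | Complex.Gamma z = 0} ⊆ Set.range fun m : ℕ => -(m : ℂ) := by
      intro z hz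
      obtain ⟨m, hm⟩ := Complex.Gamma_eq_zero_iff z |>.1 hz
      exact ⟨m, hm.symm⟩
    exact (Set.countable_range _).mono this
  have hpole2 : (⋃ i, {z : ℂ | Complex.Gamma (a i * z + b i) = 0}).Countable := by
    refine Set.countable_iUnion fun i => ?_
    refine Set.Countable.preimage_of_injOn (f := fun z => a i * z + b i)
      (s := {z : ℂ | Complex.Gamma z = 0}) hpole ?_
    intro x _ y _ hab
    have : a i * x = a i * y := by simpa using hab
    exact mul_left_cancel₀ (ha.ne_zero i) this
  refine (hz.union hpole2).mono ?_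
  intro z hz0
  by_cases hG : ∀ i, Complex.Gamma (a i * z + b i) ≠ 0
  · left
    have h1 : eval (pt a b z) P = 0 := hz0
    rw [key z hG] at h1
    rcases mul_eq_zero.1 h1 with h2 | h2
    · exact h2
    · exact absurd h2 (Finset.prod_ne_zero_iff.2 fun i _ => pow_ne_zero _ (hG i))
  · right
    push Not at hG
    obtain ⟨i, hi⟩ := hG
    exact Set.mem_iUnion.2 ⟨i, hi⟩

theorem multi_countable {n : ℕ} (a b : Fin n → ℂ) (ha : LinearIndependent ℚ a) :
    {s : ℂ | ¬ AlgebraicIndependent ℚ (pt a b s)}.Countable := by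
  have hMc : Countable (MvPolynomial (Option (Fin n)) ℚ) := by
    rw [← Cardinal.mk_le_aleph0_iff]
    refine (MvPolynomial.cardinalMk_le_max).trans ?_
    have h1 : Cardinal.mk ℚ ≤ Cardinal.aleph0 := Cardinal.mk_le_aleph0_iff.2 inferInstance
    have h2 : Cardinal.mk (Option (Fin n)) ≤ Cardinal.aleph0 :=
      Cardinal.mk_le_aleph0_iff.2 inferInstance
    exact max_le (max_le h1 h2) le_rfl
  have hsub : {s : ℂ | ¬ AlgebraicIndependent ℚ (pt a b s)} ⊆
      ⋃ P : {P : MvPolynomial (Option (Fin n)) ℚ // P ≠ 0},
        {z : ℂ | eval (pt a b z) (MvPolynomial.map (algebraMap ℚ ℂ) P.1) = 0} := by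
    intro z hz
    have hz' : ¬ AlgebraicIndependent ℚ (pt a b z) := hz
    rw [algebraicIndependent_iff] at hz'
    push Not at hz'
    obtain ⟨P, hP, hP0⟩ := hz'
    refine Set.mem_iUnion.2 ⟨⟨P, hP0⟩, ?_⟩
    show eval (pt a b z) (MvPolynomial.map (algebraMap ℚ ℂ) P) = 0
    rw [MvPolynomial.eval_map, ← MvPolynomial.aeval_def]
    exact hP
  refine Set.Countable.mono hsub (Set.countable_iUnion fun P => multi_zeros a b ha _ ?_)
  intro h
  exact P.2 ((MvPolynomial.map_injective _ (algebraMap ℚ ℂ).injective) (by rw [h, map_zero]))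

/-- lower bound along a line from a `ℚ`-linearly independent subfamily of the direction -/
theorem sub_line {n r : ℕ} (hr : 0 < r) (a b : Fin n → ℂ) (e : Fin r → Fin n)
    (ha : LinearIndependent ℚ (a ∘ e)) :
    {t : ℂ | Algebra.trdeg ℚ (gammaField fun k => a k * t + b k) < r + 1}.Countable := by
  classical
  set i : Fin n := e ⟨0, hr⟩ with hidef
  have hi0 : (a ∘ e) ⟨0, hr⟩ ≠ 0 := ha.ne_zero ⟨0, hr⟩
  have hi : a i ≠ 0 := hi0
  let a' : Fin r → ℂ := fun k => a (e k) / a i
  let b' : Fin r → ℂ := fun k => b (e k) - a (e k) / a i * b i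
  have ha' : LinearIndependent ℚ a' := by
    rw [Fintype.linearIndependent_iff]
    intro g hg k
    refine Fintype.linearIndependent_iff.1 ha g ?_ k
    have h1 : ∑ k, g k • a' k = (∑ k, g k • (a ∘ e) k) / a i := by
      rw [Finset.sum_div]
      refine Finset.sum_congr rfl fun k _ => ?_
      simp only [a', Rat.smul_def, Function.comp_apply]
      rw [mul_div_assoc]
    rw [h1] at hg
    rcases div_eq_zero_iff.1 hg with h2 | h2
    · exact h2
    · exact absurd h2 hi
  have hc := multi_countable a' b' ha'
  have hpre : {t : ℂ | ¬ AlgebraicIndependent ℚ (pt a' b' (a i * t + b i))}.Countable := by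
    refine Set.Countable.preimage_of_injOn (f := fun t => a i * t + b i)
      (s := {s : ℂ | ¬ AlgebraicIndependent ℚ (pt a' b' s)}) hc ?_
    intro x _ y _ hxy
    have : a i * x = a i * y := by simpa using hxy
    exact mul_left_cancel₀ hi this
  refine hpre.mono ?_
  intro t ht hind
  have hmem : ∀ o, pt a' b' (a i * t + b i) o ∈ gammaField fun k => a k * t + b k := by
    intro o
    rcases o with _ | k
    · exact IntermediateField.subset_adjoin _ _ (Or.inl ⟨i, rfl⟩)
    · have : pt a' b' (a i * t + b i) (some k) = Complex.Gamma (a (e k) * t + b (e k)) := by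
        show Complex.Gamma (a (e k) / a i * (a i * t + b i) + (b (e k) - a (e k) / a i * b i)) = _
        congr 1
        field_simp
        ring
      rw [this]
      exact IntermediateField.subset_adjoin _ _ (Or.inr ⟨e k, rfl⟩)
  let x' : Option (Fin r) → gammaField fun k => a k * t + b k := fun o => ⟨_, hmem o⟩
  have hx' : AlgebraicIndependent ℚ x' :=
    (AlgHom.algebraicIndependent_iff (gammaField fun k => a k * t + b k).val
      Subtype.val_injective).1 hind
  have h3 := hx'.cardinalMk_le_trdeg
  rw [Cardinal.mk_option, Cardinal.mk_fin] at h3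
  have ht' : Algebra.trdeg ℚ (gammaField fun k => a k * t + b k) < r + 1 := ht
  exact absurd h3 (not_le.2 ht')

/-- outside a countable set, the transcendence degree along a line exceeds the `ℚ`-rank of the
direction -/
theorem rank_line {n : ℕ} (a b : Fin n → ℂ) (ha : a ≠ 0) :
    {t : ℂ | Algebra.trdeg ℚ (gammaField fun k => a k * t + b k) <
      Module.finrank ℚ (Submodule.span ℚ (Set.range a)) + 1}.Countable := by
  classical
  obtain ⟨κ, f, hf, hsp, hli⟩ := exists_linearIndependent' ℚ a
  have hκ : Finite κ := Finite.of_injective f hf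
  have := Fintype.ofFinite κ
  let ψ := Fintype.equivFin κ
  have hli2 : LinearIndependent ℚ (a ∘ (f ∘ ψ.symm)) := by
    have := hli.comp ψ.symm ψ.symm.injective
    exact this
  have hcard : Module.finrank ℚ (Submodule.span ℚ (Set.range a)) = Fintype.card κ := by
    rw [← hsp]
    exact finrank_span_eq_card hli
  have hpos : 0 < Fintype.card κ := by
    rw [← hcard]
    by_contra h0
    have h1 : Module.finrank ℚ (Submodule.span ℚ (Set.range a)) = 0 := by omega
    have : Module.Finite ℚ (Submodule.span ℚ (Set.range a)) :=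
      Module.Finite.span_of_finite ℚ (Set.finite_range a)
    rw [Submodule.finrank_eq_zero, Submodule.span_eq_bot] at h1
    apply ha
    funext i
    exact h1 (a i) ⟨i, rfl⟩
  rw [hcard]
  exact sub_line hpos a b _ hli2

end Pool.Agent.H731R3.GA
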