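import Pool.Agent.Helper242.KK.Gam2

set_option autoImplicit false

namespace Pool.Agent.H731R3.GA

open Filter Topology Complex

/-- lower bound for `Γ` in a strip of width one -/
lemma strip_lower : ∃ C : ℝ, 0 < C ∧ ∀ z : ℂ, 1 / 2 ≤ z.re → z.re < 3 / 2 →
    ‖(Complex.Gamma z)⁻¹‖ ≤ C * Real.exp (4 * |z.im|) := by
  obtain ⟨C0, hC0p, hC0⟩ := Helper242.KK.ig_const
  refine ⟨C0, hC0p, fun z h1 h2 => ?_⟩
  have h := Helper242.KK.ig_base C0 hC0 z.re z.im h1 h2
  have hz : ((z.re : ℝ) : ℂ) + (z.im : ℝ) * I = z := Complex.re_add_im z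
  rw [hz] at h
  refine h.trans ?_
  have hv := abs_nonneg z.im
  have h3 : (1 + |z.im|) ^ (2 - z.re) ≤ Real.exp (2 * |z.im|) := by
    calc (1 + |z.im|) ^ (2 - z.re) ≤ (1 + |z.im|) ^ (2 : ℝ) :=
          Real.rpow_le_rpow_of_exponent_le (by linarith) (by linarith)
      _ = (1 + |z.im|) ^ 2 := by norm_num
      _ ≤ (Real.exp |z.im|) ^ 2 := by
          have := Real.add_one_le_exp |z.im|
          have h4 : 1 + |z.im| ≤ Real.exp |z.im| := by linarith
          gcongr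
      _ = Real.exp (2 * |z.im|) := by rw [← Real.exp_nat_mul]; norm_num
  have h5 : Real.exp (Real.pi / 2 * |z.im|) ≤ Real.exp (2 * |z.im|) := by
    apply Real.exp_le_exp.2
    have := Real.pi_lt_four
    nlinarith
  calc C0 * (1 + |z.im|) ^ (2 - z.re) * Real.exp (Real.pi / 2 * |z.im|)
      ≤ C0 * Real.exp (2 * |z.im|) * Real.exp (2 * |z.im|) := by gcongr
    _ = C0 * Real.exp (4 * |z.im|) := by
        rw [mul_assoc, ← Real.exp_add]; congr 2; ring

/-- `Γ(z + k + 1)` is at least `k! / 2` times `Γ(z)` for `Re z ≥ 1/2` -/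
lemma shift_lower (z : ℂ) (hz : 1 / 2 ≤ z.re) (k : ℕ) :
    (k.factorial : ℝ) / 2 * ‖Complex.Gamma z‖ ≤ ‖Complex.Gamma (z + (k + 1 : ℕ))‖ := by
  induction k with
  | zero =>
    have hz0 : z ≠ 0 := by
      rintro rfl; norm_num at hz
    have h1 : Complex.Gamma (z + ((0 + 1 : ℕ) : ℂ)) = z * Complex.Gamma z := by
      rw [← Complex.Gamma_add_one z hz0]; congr 1; push_cast; ring
    rw [h1, norm_mul]
    have h2 : (1 : ℝ) / 2 ≤ ‖z‖ := hz.trans (Complex.re_le_norm z)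
    simp only [Nat.factorial_zero, Nat.cast_one]
    gcongr
  | succ k ih =>
    have hre : (k : ℝ) + 1 ≤ (z + ((k + 1 : ℕ) : ℂ)).re := by
      simp only [Complex.add_re, Complex.natCast_re]
      push_cast
      linarith
    have hne : z + ((k + 1 : ℕ) : ℂ) ≠ 0 := by
      intro h
      rw [h] at hre
      simp only [Complex.zero_re] at hre
      have : (0 : ℝ) ≤ k := Nat.cast_nonneg k
      linarith
    have h1 : Complex.Gamma (z + ((k + 1 + 1 : ℕ) : ℂ)) =
        (z + ((k + 1 : ℕ) : ℂ)) * Complex.Gamma (z + ((k + 1 : ℕ) : ℂ)) := by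
      rw [← Complex.Gamma_add_one _ hne]; congr 1; push_cast; ring
    rw [h1, norm_mul, Nat.factorial_succ]
    have h2 : (k : ℝ) + 1 ≤ ‖z + ((k + 1 : ℕ) : ℂ)‖ := hre.trans (Complex.re_le_norm _)
    calc (((k + 1) * k.factorial : ℕ) : ℝ) / 2 * ‖Complex.Gamma z‖
        = ((k : ℝ) + 1) * ((k.factorial : ℝ) / 2 * ‖Complex.Gamma z‖) := by push_cast; ring
      _ ≤ ‖z + ((k + 1 : ℕ) : ℂ)‖ * ‖Complex.Gamma (z + ((k + 1 : ℕ) : ℂ))‖ := by
          gcongr

lemma fact_dom (A B : ℝ) : ∀ᶠ n : ℕ in atTop, B * A ^ n ≤ (n.factorial : ℝ) := by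
  have h := (FloorSemiring.tendsto_pow_div_factorial_atTop A).const_mul B
  rw [mul_zero] at h
  have h2 := h.eventually (gt_mem_nhds (show (0 : ℝ) < 1 by norm_num))
  filter_upwards [h2] with n hn
  have hp : (0 : ℝ) < n.factorial := by exact_mod_cast n.factorial_pos
  rw [← mul_div_assoc, div_lt_one hp] at hn
  exact hn.le

/-- along an arithmetic progression going to the right, `Γ` grows faster than any power -/
lemma grow_right (γ α : ℂ) (hα : 0 < α.re) (K : ℕ) (B : ℝ) :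
    ∀ᶠ m : ℕ in atTop, B * ((m : ℝ) + 1) ^ K ≤ ‖Complex.Gamma (γ + α * m)‖ := by
  obtain ⟨C, hC, hstrip⟩ := strip_lower
  set ρ := α.re with hρ
  set D : ℝ := 4 + ‖γ‖ with hD
  set a : ℝ := (K + 4 * ‖α‖) / ρ with ha
  set B' : ℝ := 2 * C * |B| * Real.exp (4 * ‖γ‖) * Real.exp (a * D) with hB'
  have hdom := fact_dom (Real.exp a) B'
  rw [eventually_atTop] at hdom
  obtain ⟨N, hN⟩ := hdom
  filter_upwards [eventually_ge_atTop ⌈(N + D + 2) / ρ⌉₊] with m hm
  have hm1 : ((N : ℝ) + D + 2) / ρ ≤ m := Nat.ceil_le.1 hm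
  rw [div_le_iff₀ hα] at hm1
  set w : ℂ := γ + α * m with hw
  have hwre : w.re = γ.re + ρ * m := by
    simp [hw, hρ]
  have hwim : |w.im| ≤ ‖γ‖ + ‖α‖ * m := by
    have : w.im = γ.im + α.im * m := by simp [hw]
    rw [this]
    refine (abs_add_le _ _).trans ?_
    rw [abs_mul, Nat.abs_cast]
    gcongr
    · exact Complex.abs_im_le_norm γ
    · exact Complex.abs_im_le_norm α
  have hγre : -‖γ‖ ≤ γ.re := (abs_le.1 (Complex.abs_re_le_norm γ)).1
  have hγre' : γ.re ≤ ‖γ‖ := (abs_le.1 (Complex.abs_re_le_norm γ)).2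
  -- the integer part
  set k := ⌊w.re - 3 / 2⌋₊ with hk
  have hwpos : (N : ℝ) + 2 ≤ w.re - 3 / 2 := by rw [hwre]; nlinarith
  have hNn : (0 : ℝ) ≤ N := Nat.cast_nonneg N
  have hk1 : (k : ℝ) ≤ w.re - 3 / 2 := Nat.floor_le (by linarith)
  have hk2 : w.re - 3 / 2 < k + 1 := Nat.lt_floor_add_one _
  have hNk : N ≤ k := by
    have : (N : ℝ) < k + 1 := by linarith
    exact_mod_cast Nat.lt_succ_iff.1 (by exact_mod_cast this)
  set z : ℂ := w - ((k + 1 : ℕ) : ℂ) with hz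
  have hzre : z.re = w.re - (k + 1) := by simp [hz]
  have hzim : z.im = w.im := by simp [hz]
  have hs := hstrip z (by rw [hzre]; linarith) (by rw [hzre]; linarith)
  have hsh := shift_lower z (by rw [hzre]; linarith) k
  have hzw : z + ((k + 1 : ℕ) : ℂ) = w := by rw [hz]; ring
  rw [hzw] at hsh
  have hGz : Complex.Gamma z ≠ 0 := Complex.Gamma_ne_zero_of_re_pos (by rw [hzre]; linarith)
  have hGzn : 0 < ‖Complex.Gamma z‖ := norm_pos_iff.2 hGz
  rw [norm_inv, inv_le_comm₀ hGzn (by positivity)] at hs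
  have hkf := hN k hNk
  -- bound of m in terms of k
  have hmk : (m : ℝ) ≤ (k + D) / ρ := by
    rw [le_div_iff₀ hα]
    have : w.re < k + 5 / 2 := by linarith
    rw [hwre] at this
    nlinarith
  have hexp : ((m : ℝ) + 1) ^ K * Real.exp (4 * |w.im|) ≤
      Real.exp (4 * ‖γ‖) * Real.exp (a * D) * Real.exp a ^ k := by
    have h1 : ((m : ℝ) + 1) ^ K ≤ Real.exp (K * m) := by
      rw [Real.exp_nat_mul]
      exact pow_le_pow_left₀ (by positivity) (Real.add_one_le_exp _) K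
    have h2 : Real.exp (4 * |w.im|) ≤ Real.exp (4 * ‖γ‖ + 4 * ‖α‖ * m) := by
      apply Real.exp_le_exp.2; linarith
    have hka : (K + 4 * ‖α‖) * m ≤ a * (k + D) := by
      rw [ha, div_mul_eq_mul_div, mul_div_assoc]
      gcongr
    calc _ ≤ Real.exp (K * m) * Real.exp (4 * ‖γ‖ + 4 * ‖α‖ * m) := by gcongr
      _ = Real.exp (4 * ‖γ‖ + (K + 4 * ‖α‖) * m) := by rw [← Real.exp_add]; congr 1; ring
      _ ≤ Real.exp (4 * ‖γ‖ + a * (k + D)) := by apply Real.exp_le_exp.2; linarith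
      _ = _ := by
          rw [← Real.exp_nat_mul, ← Real.exp_add, ← Real.exp_add]; congr 1; ring
  have hfin : |B| * ((m : ℝ) + 1) ^ K * (2 * C * Real.exp (4 * |w.im|)) ≤ (k.factorial : ℝ) := by
    calc |B| * ((m : ℝ) + 1) ^ K * (2 * C * Real.exp (4 * |w.im|))
        = 2 * C * |B| * (((m : ℝ) + 1) ^ K * Real.exp (4 * |w.im|)) := by ring
      _ ≤ 2 * C * |B| * (Real.exp (4 * ‖γ‖) * Real.exp (a * D) * Real.exp a ^ k) := by gcongr
      _ = B' * Real.exp a ^ k := by rw [hB']; ring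
      _ ≤ _ := hkf
  rw [hzim] at hs
  calc B * ((m : ℝ) + 1) ^ K ≤ |B| * ((m : ℝ) + 1) ^ K := by
        gcongr; exact le_abs_self B
    _ ≤ (k.factorial : ℝ) / (2 * C * Real.exp (4 * |w.im|)) := by
        rw [le_div_iff₀ (by positivity)]; exact hfin
    _ = (k.factorial : ℝ) / 2 * (C * Real.exp (4 * |w.im|))⁻¹ := by field_simp
    _ ≤ (k.factorial : ℝ) / 2 * ‖Complex.Gamma z‖ := by gcongr
    _ ≤ _ := hsh

end Pool.Agent.H731R3.GA
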