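import Pool.Agent.H731R3.GA.Cl

set_option autoImplicit false

namespace Pool.Agent.H731R3.GA

open MvPolynomial

/-- the field generated by the numbers `z i` and `Γ(z i)` -/
noncomputable def gammaField {n : ℕ} (z : Fin n → ℂ) : IntermediateField ℚ ℂ :=
  IntermediateField.adjoin ℚ (Set.range z ∪ Set.range fun i => Complex.Gamma (z i))

lemma gcl_mono {A B : Set ℂ} (h : A ⊆ B) : gcl A ≤ gcl B :=
  gcl_le A (gcl B) (gcl_closed B) (h.trans (subset_gcl B))

lemma greedy {n : ℕ} (z : Fin n → ℂ) (s : Finset (Fin n)) :
    ∃ I : Finset (Fin n), I ⊆ s ∧ (∀ j ∈ s, z j ∈ gcl (z '' I)) ∧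
      ∃ x : Fin (2 * I.card) → ℂ, AlgebraicIndependent ℚ x ∧ (∀ i, x i ∈ gcl (z '' I)) ∧
        ∀ i, x i ∈ gammaField z := by
  classical
  induction s using Finset.induction_on with
  | empty =>
    refine ⟨∅, Finset.Subset.refl _, fun j hj => absurd hj (Finset.notMem_empty j), ?_⟩
    have he : IsEmpty (Fin (2 * (∅ : Finset (Fin n)).card)) := by
      rw [Finset.card_empty, mul_zero]; infer_instance
    refine ⟨fun i => (he.false i).elim, ?_, fun i => (he.false i).elim, fun i => (he.false i).elim⟩
    exact algebraicIndependent_empty_type_iff.2 (algebraMap ℚ ℂ).injective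
  | insert j s hj ih =>
    obtain ⟨I, hIs, hcl, x, hx, hxc, hxK⟩ := ih
    by_cases hz : z j ∈ gcl (z '' I)
    · refine ⟨I, hIs.trans (Finset.subset_insert j s), ?_, x, hx, hxc, hxK⟩
      intro k hk
      rcases Finset.mem_insert.1 hk with rfl | hk
      · exact hz
      · exact hcl k hk
    · have hjI : j ∉ I := fun h => hj (hIs h)
      have hsub : z '' (I : Set (Fin n)) ⊆ z '' ((insert j I : Finset (Fin n)) : Set (Fin n)) := by
        apply Set.image_mono
        intro k hk
        exact Finset.mem_coe.2 (Finset.mem_insert_of_mem hk)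
      have hzj : z j ∈ gcl (z '' ((insert j I : Finset (Fin n)) : Set (Fin n))) :=
        subset_gcl _ ⟨j, Finset.mem_coe.2 (Finset.mem_insert_self j I), rfl⟩
      refine ⟨insert j I, Finset.insert_subset_insert j hIs, ?_, ?_⟩
      · intro k hk
        rcases Finset.mem_insert.1 hk with rfl | hk
        · exact hzj
        · exact gcl_mono hsub (hcl k hk)
      · have hy : AlgebraicIndependent (gcl (z '' I)) ![Complex.Gamma (z j), z j] := by
          by_contra hno
          exact hz ((gcl_closed _).2 _ hno)
        have hxS : Set.range x ⊆ Set.range (algebraMap (gcl (z '' I)) ℂ) := by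
          rintro _ ⟨i, rfl⟩
          exact ⟨⟨x i, hxc i⟩, rfl⟩
        have hsum := hx.sumElim_of_tower hxS hy
        have hcard : 2 * (insert j I).card = 2 + 2 * I.card := by
          rw [Finset.card_insert_of_notMem hjI]; ring
        let e : Fin (2 * (insert j I).card) ≃ Fin 2 ⊕ Fin (2 * I.card) :=
          (finCongr hcard).trans finSumFinEquiv.symm
        refine ⟨Sum.elim ![Complex.Gamma (z j), z j] x ∘ e, hsum.comp e e.injective, ?_, ?_⟩
        · intro i
          simp only [Function.comp_apply]
          rcases e i with a | a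
          · have h2 : ∀ a : Fin 2, ![Complex.Gamma (z j), z j] a ∈
                gcl (z '' ((insert j I : Finset (Fin n)) : Set (Fin n))) := by
              intro a
              fin_cases a
              · exact (gcl_closed _).1 _ hzj
              · exact hzj
            exact h2 a
          · exact gcl_mono hsub (hxc a)
        · intro i
          simp only [Function.comp_apply]
          rcases e i with a | a
          · have h2 : ∀ a : Fin 2, ![Complex.Gamma (z j), z j] a ∈ gammaField z := by
              intro a
              fin_cases a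
              · exact IntermediateField.subset_adjoin _ _ (Or.inr ⟨j, rfl⟩)
              · exact IntermediateField.subset_adjoin _ _ (Or.inl ⟨j, rfl⟩)
            exact h2 a
          · exact hxK a

theorem dim_le {n : ℕ} (z : Fin n → ℂ) :
    ∃ I : Finset (Fin n), (∀ j, z j ∈ gammaClosure (z '' I)) ∧
      ((2 * I.card : ℕ) : Cardinal) ≤ Algebra.trdeg ℚ (gammaField z) := by
  obtain ⟨I, -, hcl, x, hx, -, hxK⟩ := greedy z Finset.univ
  refine ⟨I, fun j => (mem_gcl _ _).1 (hcl j (Finset.mem_univ j)), ?_⟩
  let x' : Fin (2 * I.card) → gammaField z := fun i => ⟨x i, hxK i⟩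
  have hx' : AlgebraicIndependent ℚ x' :=
    (AlgHom.algebraicIndependent_iff (gammaField z).val Subtype.val_injective).1 hx
  have h := hx'.cardinalMk_le_trdeg
  rwa [Cardinal.mk_fin] at h

theorem pairs_countable :
    {z : Fin 2 → ℂ | Algebra.trdeg ℚ (gammaField z) < 2}.Countable := by
  have hC := gammaClosure_countable ∅ Set.countable_empty
  refine (Set.countable_univ_pi (fun _ : Fin 2 => hC)).mono ?_
  intro z hz
  obtain ⟨I, hcl, hI⟩ := dim_le z
  have h1 : ((2 * I.card : ℕ) : Cardinal) < 2 := lt_of_le_of_lt hI hz
  have h2 : 2 * I.card < 2 := by exact_mod_cast h1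
  have h3 : I = ∅ := Finset.card_eq_zero.1 (by omega)
  rw [Set.mem_univ_pi]
  intro j
  have h4 := hcl j
  rwa [h3, Finset.coe_empty, Set.image_empty] at h4

end Pool.Agent.H731R3.GA
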