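import Pool.Agent.H731R3.GA.Dom

set_option autoImplicit false

namespace Pool.Agent.H731R3.GA

open MvPolynomial

/-- the field generated over `F` by the numbers `z i` and `Γ(z i)` -/
noncomputable def fld (F : Type) [Field F] [Algebra F ℂ] {n : ℕ} (z : Fin n → ℂ) :
    IntermediateField F ℂ :=
  IntermediateField.adjoin F (Set.range z ∪ Set.range fun k => Complex.Gamma (z k))

variable (F : Type) [Field F] [Algebra F ℂ] [Countable F]

lemma dep_over {ι : Type} [Countable ι] (x : ℂ → ι → ℂ)
    (h : ∀ P : MvPolynomial ι ℂ, P ≠ 0 → {s : ℂ | eval (x s) P = 0}.Countable) :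
    {s : ℂ | ¬ AlgebraicIndependent F (x s)}.Countable := by
  have hMc : Countable (MvPolynomial ι F) := by
    rw [← Cardinal.mk_le_aleph0_iff]
    refine (MvPolynomial.cardinalMk_le_max).trans ?_
    have h1 : Cardinal.mk F ≤ Cardinal.aleph0 := Cardinal.mk_le_aleph0_iff.2 inferInstance
    have h2 : Cardinal.mk ι ≤ Cardinal.aleph0 := Cardinal.mk_le_aleph0_iff.2 inferInstance
    exact max_le (max_le h1 h2) le_rfl
  have hsub : {s : ℂ | ¬ AlgebraicIndependent F (x s)} ⊆
      ⋃ P : {P : MvPolynomial ι F // P ≠ 0},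
        {z : ℂ | eval (x z) (MvPolynomial.map (algebraMap F ℂ) P.1) = 0} := by
    intro z hz
    have hz' : ¬ AlgebraicIndependent F (x z) := hz
    rw [algebraicIndependent_iff] at hz'
    push Not at hz'
    obtain ⟨P, hP, hP0⟩ := hz'
    refine Set.mem_iUnion.2 ⟨⟨P, hP0⟩, ?_⟩
    show eval (x z) (MvPolynomial.map (algebraMap F ℂ) P) = 0
    rw [MvPolynomial.eval_map, ← MvPolynomial.aeval_def]
    exact hP
  refine Set.Countable.mono hsub (Set.countable_iUnion fun P => h _ ?_)
  intro h
  exact P.2 ((MvPolynomial.map_injective _ (algebraMap F ℂ).injective) (by rw [h, map_zero]))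

/-- lower bound 3 for the transcendence degree along a line -/
theorem line_over {n : ℕ} (a b : Fin n → ℂ) (i j : Fin n) (hi : a i ≠ 0) (hj : a j ≠ 0)
    (h : ¬ ∃ q q' : ℚ, a j = q * a i ∧ b j = q * b i + q') :
    {t : ℂ | Algebra.trdeg F (fld F fun k => a k * t + b k) < 3}.Countable := by
  set α := a j / a i with hα
  set β := b j - α * b i with hβ
  have hα0 : α ≠ 0 := div_ne_zero hj hi
  have hq : ¬ ((∃ q : ℚ, α = q) ∧ ∃ q : ℚ, β = q) := by
    rintro ⟨⟨q, hq⟩, ⟨q', hq'⟩⟩
    refine h ⟨q, q', ?_, ?_⟩
    · rw [← hq, hα]; field_simp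
    · rw [← hq, ← hq', hβ]; ring
  have hc := dep_over F (fun s => ![Complex.Gamma s, Complex.Gamma (α * s + β), s])
    (triple_zeros α β hα0 hq)
  have hpre : {t : ℂ | ¬ AlgebraicIndependent F
      ![Complex.Gamma (a i * t + b i), Complex.Gamma (α * (a i * t + b i) + β),
        a i * t + b i]}.Countable := by
    refine Set.Countable.preimage_of_injOn (f := fun t => a i * t + b i)
      (s := {s : ℂ | ¬ AlgebraicIndependent F
      ![Complex.Gamma s, Complex.Gamma (α * s + β), s]}) hc ?_
    intro x _ y _ hxy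
    have : a i * x = a i * y := by simpa using hxy
    exact mul_left_cancel₀ hi this
  refine hpre.mono ?_
  intro t ht hind
  have hαa : ∀ t, α * (a i * t + b i) + β = a j * t + b j := by
    intro t
    rw [hβ, hα]; field_simp; ring
  rw [hαa] at hind
  have hmem : ∀ k, ![Complex.Gamma (a i * t + b i), Complex.Gamma (a j * t + b j),
        a i * t + b i] k ∈ fld F fun k => a k * t + b k := by
    intro k
    fin_cases k
    · exact IntermediateField.subset_adjoin _ _ (Or.inr ⟨i, rfl⟩)
    · exact IntermediateField.subset_adjoin _ _ (Or.inr ⟨j, rfl⟩)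
    · exact IntermediateField.subset_adjoin _ _ (Or.inl ⟨i, rfl⟩)
  let x' : Fin 3 → fld F fun k => a k * t + b k := fun k => ⟨_, hmem k⟩
  have hx' : AlgebraicIndependent F x' :=
    (AlgHom.algebraicIndependent_iff (fld F fun k => a k * t + b k).val
      Subtype.val_injective).1 hind
  have h3 := hx'.cardinalMk_le_trdeg
  rw [Cardinal.mk_fin] at h3
  have ht' : Algebra.trdeg F (fld F fun k => a k * t + b k) < 3 := ht
  exact absurd h3 (not_le.2 (by exact_mod_cast ht'))

/-- lower bound along a line from a `ℚ`-linearly independent subfamily of the direction -/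
theorem sub_over {n r : ℕ} (hr : 0 < r) (a b : Fin n → ℂ) (e : Fin r → Fin n)
    (ha : LinearIndependent ℚ (a ∘ e)) :
    {t : ℂ | Algebra.trdeg F (fld F fun k => a k * t + b k) < r + 1}.Countable := by
  classical
  set i : Fin n := e ⟨0, hr⟩ with hidef
  have hi0 : (a ∘ e) ⟨0, hr⟩ ≠ 0 := ha.ne_zero ⟨0, hr⟩
  have hi : a i ≠ 0 := hi0
  let a' : Fin r → ℂ := fun k => a (e k) / a i
  let b' : Fin r → ℂ := fun k => b (e k) - a (e k) / a i * b i
  have ha' : LinearIndependent ℚ a' := by
    rw [Fintype.linearIndependent_iff]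
    intro g hg k
    refine Fintype.linearIndependent_iff.1 ha g ?_ k
    have h1 : ∑ k, g k • a' k = (∑ k, g k • (a ∘ e) k) / a i := by
      rw [Finset.sum_div]
      refine Finset.sum_congr rfl fun k _ => ?_
      simp only [a', Rat.smul_def, Function.comp_apply]
      rw [mul_div_assoc]
    rw [h1] at hg
    rcases div_eq_zero_iff.1 hg with h2 | h2
    · exact h2
    · exact absurd h2 hi
  have hc := dep_over F (pt a' b') (multi_zeros a' b' ha')
  have hpre : {t : ℂ | ¬ AlgebraicIndependent F (pt a' b' (a i * t + b i))}.Countable := by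
    refine Set.Countable.preimage_of_injOn (f := fun t => a i * t + b i)
      (s := {s : ℂ | ¬ AlgebraicIndependent F (pt a' b' s)}) hc ?_
    intro x _ y _ hxy
    have : a i * x = a i * y := by simpa using hxy
    exact mul_left_cancel₀ hi this
  refine hpre.mono ?_
  intro t ht hind
  have hmem : ∀ o, pt a' b' (a i * t + b i) o ∈ fld F fun k => a k * t + b k := by
    intro o
    rcases o with _ | k
    · exact IntermediateField.subset_adjoin _ _ (Or.inl ⟨i, rfl⟩)
    · have : pt a' b' (a i * t + b i) (some k) = Complex.Gamma (a (e k) * t + b (e k)) := by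
        show Complex.Gamma (a (e k) / a i * (a i * t + b i) + (b (e k) - a (e k) / a i * b i)) = _
        congr 1
        field_simp
        ring
      rw [this]
      exact IntermediateField.subset_adjoin _ _ (Or.inr ⟨e k, rfl⟩)
  let x' : Option (Fin r) → fld F fun k => a k * t + b k := fun o => ⟨_, hmem o⟩
  have hx' : AlgebraicIndependent F x' :=
    (AlgHom.algebraicIndependent_iff (fld F fun k => a k * t + b k).val
      Subtype.val_injective).1 hind
  have h3 := hx'.cardinalMk_le_trdeg
  rw [Cardinal.mk_option, Cardinal.mk_fin] at h3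
  have ht' : Algebra.trdeg F (fld F fun k => a k * t + b k) < r + 1 := ht
  exact absurd h3 (not_le.2 ht')

theorem rank_over {n : ℕ} (a b : Fin n → ℂ) (ha : a ≠ 0) :
    {t : ℂ | Algebra.trdeg F (fld F fun k => a k * t + b k) <
      Module.finrank ℚ (Submodule.span ℚ (Set.range a)) + 1}.Countable := by
  classical
  obtain ⟨κ, f, hf, hsp, hli⟩ := exists_linearIndependent' ℚ a
  have hκ : Finite κ := Finite.of_injective f hf
  have := Fintype.ofFinite κ
  let ψ := Fintype.equivFin κ
  have hli2 : LinearIndependent ℚ (a ∘ (f ∘ ψ.symm)) := by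
    have := hli.comp ψ.symm ψ.symm.injective
    exact this
  have hcard : Module.finrank ℚ (Submodule.span ℚ (Set.range a)) = Fintype.card κ := by
    rw [← hsp]
    exact finrank_span_eq_card hli
  have hpos : 0 < Fintype.card κ := by
    rw [← hcard]
    by_contra h0
    have h1 : Module.finrank ℚ (Submodule.span ℚ (Set.range a)) = 0 := by omega
    have : Module.Finite ℚ (Submodule.span ℚ (Set.range a)) :=
      Module.Finite.span_of_finite ℚ (Set.finite_range a)
    rw [Submodule.finrank_eq_zero, Submodule.span_eq_bot] at h1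
    apply ha
    funext i
    exact h1 (a i) ⟨i, rfl⟩
  rw [hcard]
  exact sub_over F hpos a b _ hli2

end Pool.Agent.H731R3.GA
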