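import Pool.Agent.H731R3.GA.CommC

set_option autoImplicit false

namespace Pool.Agent.H731R3.GA

open Filter Topology MvPolynomial

lemma dom_seq {n : ℕ} (a b : Fin n → ℂ) (ω : ℂ) (hω0 : ω ≠ 0)
    (hre : LinearIndependent ℚ fun i => (a i * ω).re) (him : ∀ i, (a i * ω).im ≠ 0)
    (P : MvPolynomial (Option (Fin n)) ℂ) (hP : P ≠ 0) :
    ∃ m : ℕ, (∀ i, Complex.Gamma (a i * (ω * m) + b i) ≠ 0) ∧ eval (pt a b (ω * m)) P ≠ 0 := by
  classical
  by_contra hno
  push Not at hno
  have hray : ∀ i, ∃ C : ℝ, ∀ᶠ m : ℕ in atTop,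
      Complex.Gamma (b i + a i * ω * m) ≠ 0 ∧
      |Real.log ‖Complex.Gamma (b i + a i * ω * m)‖ - (a i * ω).re * (m * Real.log m)| ≤ C * m :=
    fun i => ray_bd (b i) (a i * ω) (hre.ne_zero i) (him i)
  choose C hC using hray
  let W : (Option (Fin n) →₀ ℕ) → ℝ := fun k => ∑ i, (k (some i) : ℝ) * (a i * ω).re
  have hsep : ∀ k ∈ P.support, ∀ l ∈ P.support, W k = W l → ∀ i, k (some i) = l (some i) := by
    intro k _ l _ h i
    have h1 := Fintype.linearIndependent_iff.1 hre (fun i => (k (some i) : ℚ) - l (some i)) (by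
      have h2 : W k - W l = 0 := by rw [h, sub_self]
      rw [← h2]
      simp only [W]
      rw [← Finset.sum_sub_distrib]
      refine Finset.sum_congr rfl fun i _ => ?_
      rw [Rat.smul_def]; push_cast; ring) i
    have h2 : (k (some i) : ℚ) = l (some i) := sub_eq_zero.1 h1
    exact_mod_cast h2
  obtain ⟨q, hq, hmax⟩ := Finset.exists_max_image P.support (fun k => toLex (W k, k none))
    (MvPolynomial.support_nonempty.2 hP)
  -- the sequence of points
  let Y : ℕ → Option (Fin n) → ℂ := fun m => pt a b (ω * m)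
  have hYn : ∀ m, Y m none = ω * m := fun m => rfl
  have hYs : ∀ m i, Y m (some i) = Complex.Gamma (b i + a i * ω * m) := by
    intro m i
    show Complex.Gamma (a i * (ω * m) + b i) = _
    congr 1; ring
  have hev : ∀ᶠ m : ℕ in atTop, (∀ o, Y m o ≠ 0) ∧ (1 : ℝ) ≤ m ∧
      ∀ i, |Real.log ‖Y m (some i)‖ - (a i * ω).re * (m * Real.log m)| ≤ C i * m := by
    have h1 : ∀ᶠ m : ℕ in atTop, ∀ i, Complex.Gamma (b i + a i * ω * m) ≠ 0 ∧
      |Real.log ‖Complex.Gamma (b i + a i * ω * m)‖ - (a i * ω).re * (m * Real.log m)| ≤ C i * m :=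
      eventually_all.2 hC
    filter_upwards [h1, eventually_ge_atTop 1] with m h2 h3
    have h3' : (1 : ℝ) ≤ m := by exact_mod_cast h3
    refine ⟨?_, h3', ?_⟩
    · intro o
      rcases o with _ | i
      · rw [hYn]
        refine mul_ne_zero hω0 ?_
        have : m ≠ 0 := by omega
        exact_mod_cast this
      · rw [hYs]; exact (h2 i).1
    · intro i
      rw [hYs]; exact (h2 i).2
  -- the ratios tend to zero
  have hexp : ∀ k ∈ P.support, k ≠ q →
      Tendsto (fun m : ℕ => ∑ o, ((k o : ℝ) - q o) * Real.log ‖Y m o‖) atTop atBot := by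
    intro k hk hkq
    have hle := hmax k hk
    rw [Prod.Lex.toLex_le_toLex] at hle
    have hlogn : ∀ m : ℕ, (1 : ℝ) ≤ m → Real.log ‖Y m none‖ = Real.log ‖ω‖ + Real.log m := by
      intro m hm
      rw [hYn, norm_mul, Complex.norm_natCast, Real.log_mul (norm_ne_zero_iff.2 hω0) (by linarith)]
    rcases hle with hlt | ⟨heq, hle⟩
    · have hlt : W k < W q := hlt
      set δ := W q - W k with hδ
      have hδpos : 0 < δ := by linarith
      set D : ℝ := |(k none : ℝ) - q none| * (|Real.log ‖ω‖| + 1) +
        ∑ i, |(k (some i) : ℝ) - q (some i)| * |C i| with hD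
      have hlogm : Tendsto (fun m : ℕ => Real.log (m : ℝ)) atTop atTop :=
        Real.tendsto_log_atTop.comp tendsto_natCast_atTop_atTop
      refine tendsto_atBot_mono' atTop ?_
        (tendsto_neg_atTop_atBot.comp (tendsto_natCast_atTop_atTop (R := ℝ)))
      filter_upwards [hev, hlogm.eventually_ge_atTop ((D + 1) / δ)] with m hm hm2
      obtain ⟨-, hm1, hb⟩ := hm
      rw [div_le_iff₀ hδpos] at hm2
      simp only [Function.comp_apply]
      rw [Fintype.sum_option, hlogn m hm1]
      have hlm : 0 ≤ Real.log m := Real.log_nonneg hm1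
      have hlm2 : Real.log m ≤ m :=
        (Real.log_le_sub_one_of_pos (by linarith)).trans (by linarith)
      have h1 : ((k none : ℝ) - q none) * (Real.log ‖ω‖ + Real.log m) ≤
          |(k none : ℝ) - q none| * (|Real.log ‖ω‖| + 1) * m := by
        have h2 : |Real.log ‖ω‖ + Real.log m| ≤ (|Real.log ‖ω‖| + 1) * m := by
          refine (abs_add_le _ _).trans ?_
          rw [abs_of_nonneg hlm, add_mul, one_mul]
          have : |Real.log ‖ω‖| ≤ |Real.log ‖ω‖| * m :=
            le_mul_of_one_le_right (abs_nonneg _) hm1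
          linarith
        refine (le_abs_self _).trans ?_
        rw [abs_mul, mul_assoc]
        gcongr
      have h3 : ∑ i, ((k (some i) : ℝ) - q (some i)) * Real.log ‖Y m (some i)‖ ≤
          (W k - W q) * (m * Real.log m) +
            (∑ i, |(k (some i) : ℝ) - q (some i)| * |C i|) * m := by
        have h4 : (W k - W q) * (m * Real.log m) =
            ∑ i, ((k (some i) : ℝ) - q (some i)) * ((a i * ω).re * (m * Real.log m)) := by
          simp only [W]
          rw [← Finset.sum_sub_distrib, Finset.sum_mul]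
          refine Finset.sum_congr rfl fun i _ => ?_
          ring
        rw [h4, Finset.sum_mul, ← Finset.sum_add_distrib]
        refine Finset.sum_le_sum fun i _ => ?_
        have h5 := hb i
        have h6 : ((k (some i) : ℝ) - q (some i)) *
            (Real.log ‖Y m (some i)‖ - (a i * ω).re * (m * Real.log m)) ≤
            |(k (some i) : ℝ) - q (some i)| * |C i| * m := by
          refine (le_abs_self _).trans ?_
          rw [abs_mul, mul_assoc]
          have h7 : C i * m ≤ |C i| * m := by gcongr; exact le_abs_self _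
          have h8 := h5.trans h7
          gcongr
        linarith
      have h9 : (D + 1) * m ≤ Real.log m * δ * m := by gcongr
      have h10 : (W k - W q) * (m * Real.log m) = -(Real.log m * δ * m) := by
        rw [hδ]; ring
      rw [h10] at h3
      have h11 : D * m = |(k none : ℝ) - q none| * (|Real.log ‖ω‖| + 1) * m +
        (∑ i, |(k (some i) : ℝ) - q (some i)| * |C i|) * m := by rw [hD]; ring
      linarith
    · have heq : W k = W q := heq
      have hle : k none ≤ q none := hle
      have hsame := hsep k hk q hq heq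
      have hlt : k none < q none := by
        refine lt_of_le_of_ne hle fun h => hkq ?_
        ext o
        rcases o with _ | i
        · exact h
        · exact hsame i
      have hlogm : Tendsto (fun m : ℕ => Real.log ‖ω‖ + Real.log (m : ℝ)) atTop atTop :=
        tendsto_atTop_add_const_left _ _
          (Real.tendsto_log_atTop.comp tendsto_natCast_atTop_atTop)
      refine tendsto_atBot_mono' atTop ?_ (tendsto_neg_atTop_atBot.comp hlogm)
      filter_upwards [hev, hlogm.eventually_ge_atTop 0] with m hm hm2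
      obtain ⟨-, hm1, hb⟩ := hm
      simp only [Function.comp_apply]
      rw [Fintype.sum_option, hlogn m hm1]
      have h1 : ∑ i, ((k (some i) : ℝ) - q (some i)) * Real.log ‖Y m (some i)‖ = 0 := by
        refine Finset.sum_eq_zero fun i _ => ?_
        rw [hsame i, sub_self, zero_mul]
      rw [h1, add_zero]
      have h2 : (k none : ℝ) + 1 ≤ q none := by exact_mod_cast hlt
      nlinarith
  have hT : ∀ k ∈ P.support.erase q, Tendsto (fun m : ℕ => P.coeff k *
      ((∏ o, Y m o ^ k o) / ∏ o, Y m o ^ q o)) atTop (𝓝 0) := by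
    intro k hk
    rw [Finset.mem_erase] at hk
    have h1 := Real.tendsto_exp_atBot.comp (hexp k hk.2 hk.1)
    have h2 : Tendsto (fun m : ℕ => (∏ o, Y m o ^ k o) / ∏ o, Y m o ^ q o) atTop (𝓝 0) := by
      rw [tendsto_zero_iff_norm_tendsto_zero]
      refine h1.congr' ?_
      filter_upwards [hev] with m hm
      simp only [Function.comp_apply]
      rw [norm_ratio (Y m) hm.1]
    simpa using h2.const_mul (P.coeff k)
  have hsum := tendsto_finsetSum _ hT
  rw [Finset.sum_const_zero] at hsum
  have hconst : Tendsto (fun _ : ℕ => -P.coeff q) atTop (𝓝 0) := by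
    refine hsum.congr' ?_
    filter_upwards [hev] with m hm
    have h1 : ∀ i, Complex.Gamma (a i * (ω * m) + b i) ≠ 0 := fun i => hm.1 (some i)
    have h2 := hno m h1
    rw [MvPolynomial.eval_eq'] at h2
    have h3 : ∑ d ∈ P.support, P.coeff d * ∏ o, Y m o ^ d o = 0 := h2
    rw [← Finset.add_sum_erase _ _ hq] at h3
    have h4 : (∏ o, Y m o ^ q o) ≠ 0 := Finset.prod_ne_zero_iff.2 fun o _ => pow_ne_zero _ (hm.1 o)
    have h5 : ∑ k ∈ P.support.erase q, P.coeff k * ((∏ o, Y m o ^ k o) / ∏ o, Y m o ^ q o) =
        (∑ k ∈ P.support.erase q, P.coeff k * ∏ o, Y m o ^ k o) / ∏ o, Y m o ^ q o := by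
      rw [Finset.sum_div]
      refine Finset.sum_congr rfl fun k _ => ?_
      rw [mul_div_assoc]
    rw [h5, div_eq_iff h4]
    linear_combination h3
  have h0 := tendsto_nhds_unique hconst tendsto_const_nhds
  exact (MvPolynomial.mem_support_iff.1 hq) (by
    have := h0.symm
    simpa using this)


/-- the point `(Γ(s), s, Γ(a_i s + b_i))` -/
noncomputable def pt2 {n : ℕ} (a b : Fin n → ℂ) (s : ℂ) : Option (Option (Fin n)) → ℂ :=
  fun o => o.elim (Complex.Gamma s) (pt a b s)

lemma eval_left {n : ℕ} (a b : Fin n → ℂ) (s : ℂ)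
    (P : MvPolynomial (Option (Option (Fin n))) ℂ) :
    eval (pt2 a b s) P = Polynomial.eval (Complex.Gamma s)
      (Polynomial.map (eval (pt a b s)) (optionEquivLeft ℂ (Option (Fin n)) P)) := by
  induction P using MvPolynomial.induction_on with
  | C c => simp [optionEquivLeft_C]
  | add p q hp hq =>
    rw [map_add, map_add, Polynomial.map_add, Polynomial.eval_add, hp, hq]
  | mul_X p o hp =>
    rw [map_mul, map_mul, Polynomial.map_mul, Polynomial.eval_mul, hp, eval_X]
    congr 1
    rcases o with _ | o
    · rw [optionEquivLeft_X_none]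
      simp [pt2]
    · rw [optionEquivLeft_X_some]
      simp [pt2]

lemma pole_zeros {n : ℕ} (a b : Fin n → ℂ) (ha : ∀ i, a i ≠ 0)
    (hre : LinearIndependent ℚ fun i => (a i * (-1)).re) (him : ∀ i, (a i * (-1)).im ≠ 0)
    (P : MvPolynomial (Option (Option (Fin n))) ℂ) (hP : P ≠ 0) :
    {s : ℂ | eval (pt2 a b s) P = 0}.Countable := by
  classical
  set Q := optionEquivLeft ℂ (Option (Fin n)) P with hQ
  have hQ0 : Q ≠ 0 := by
    rw [hQ]
    exact (map_ne_zero_iff _ (optionEquivLeft ℂ (Option (Fin n))).injective).2 hP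
  set d := Q.natDegree with hd
  have hlc : Q.coeff d ≠ 0 := by
    rw [hd]; exact Polynomial.leadingCoeff_ne_zero.2 hQ0
  obtain ⟨m, hm1, hm2⟩ := dom_seq a b (-1) (by norm_num) hre him (Q.coeff d) hlc
  let N : ℕ := ∑ l ∈ Finset.range (d + 1), ∑ k ∈ (Q.coeff l).support, ∑ i, k (some i)
  have hN : ∀ l ≤ d, ∀ k ∈ (Q.coeff l).support, ∀ i, k (some i) ≤ N := by
    intro l hl k hk i
    have h1 : ∑ k ∈ (Q.coeff l).support, ∑ i, k (some i) ≤ N :=
      Finset.single_le_sum (f := fun l => ∑ k ∈ (Q.coeff l).support, ∑ i, k (some i))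
        (fun _ _ => Nat.zero_le _) (Finset.mem_range.2 (by omega))
    have h2 : ∑ i, k (some i) ≤ ∑ k ∈ (Q.coeff l).support, ∑ i, k (some i) :=
      Finset.single_le_sum (f := fun k : Option (Fin n) →₀ ℕ => ∑ i, k (some i))
        (fun _ _ => Nat.zero_le _) hk
    have h3 : k (some i) ≤ ∑ i, k (some i) :=
      Finset.single_le_sum (f := fun i => k (some i)) (fun _ _ => Nat.zero_le _)
        (Finset.mem_univ i)
    omega
  let H : ℕ → ℂ → ℂ := fun l s => ∑ k ∈ (Q.coeff l).support, (Q.coeff l).coeff k *
    (s ^ k none * ∏ i, ((Complex.Gamma (a i * s + b i))⁻¹) ^ (N - k (some i)))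
  let G : ℂ → ℂ := fun s => ∑ l ∈ Finset.range (d + 1),
    H l s * ((Complex.Gamma s)⁻¹) ^ (d - l)
  have hHd : ∀ l, Differentiable ℂ (H l) := by
    intro l
    apply Differentiable.fun_sum
    intro k _
    refine (differentiable_const _).mul ((differentiable_id.pow _).mul ?_)
    refine Differentiable.fun_finsetProd fun i _ => ?_
    exact (Complex.differentiable_one_div_Gamma.comp
      ((differentiable_id.const_mul (a i)).add (differentiable_const (b i)))).pow _
  have hGd : Differentiable ℂ G := by
    apply Differentiable.fun_sum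
    intro l _
    exact (hHd l).mul (Complex.differentiable_one_div_Gamma.pow _)
  have key : ∀ l ≤ d, ∀ s, (∀ i, Complex.Gamma (a i * s + b i) ≠ 0) →
      eval (pt a b s) (Q.coeff l) = H l s * ∏ i, Complex.Gamma (a i * s + b i) ^ N := by
    intro l hl s hs
    rw [MvPolynomial.eval_eq']
    simp only [H]
    rw [Finset.sum_mul]
    refine Finset.sum_congr rfl fun k hk => ?_
    rw [Fintype.prod_option, mul_assoc, mul_assoc, ← Finset.prod_mul_distrib]
    congr 2
    refine Finset.prod_congr rfl fun i _ => ?_
    show Complex.Gamma (a i * s + b i) ^ k (some i) = _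
    rw [inv_pow, inv_mul_eq_div, eq_div_iff (pow_ne_zero _ (hs i)), ← pow_add]
    congr 1
    have := hN l hl k hk i
    omega
  have hG0 : G (-1 * m) ≠ 0 := by
    have h1 : G (-1 * m) = H d (-1 * m) := by
      simp only [G]
      rw [Finset.sum_eq_single d]
      · simp
      · intro k hk hkd
        have : k < d := by
          have := Finset.mem_range.1 hk
          omega
        rw [neg_one_mul, Complex.Gamma_neg_nat_eq_zero, inv_zero, zero_pow (by omega), mul_zero]
      · intro h; simp at h
    intro h
    apply hm2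
    rw [key d le_rfl _ hm1, ← h1, h, zero_mul]
  have hz := entire_zeros G hGd _ hG0
  have hpole : {z : ℂ | Complex.Gamma z = 0}.Countable := by
    have : {z : ℂ | Complex.Gamma z = 0} ⊆ Set.range fun m : ℕ => -(m : ℂ) := by
      intro z hz
      obtain ⟨m, hm⟩ := Complex.Gamma_eq_zero_iff z |>.1 hz
      exact ⟨m, hm.symm⟩
    exact (Set.countable_range _).mono this
  have hpole2 : (⋃ i, {z : ℂ | Complex.Gamma (a i * z + b i) = 0}).Countable := by
    refine Set.countable_iUnion fun i => ?_
    refine Set.Countable.preimage_of_injOn (f := fun z => a i * z + b i)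
      (s := {z : ℂ | Complex.Gamma z = 0}) hpole ?_
    intro x _ y _ hab
    have : a i * x = a i * y := by simpa using hab
    exact mul_left_cancel₀ (ha i) this
  refine ((hz.union hpole).union hpole2).mono ?_
  intro z hz0
  by_cases hG : ∀ i, Complex.Gamma (a i * z + b i) ≠ 0
  · left
    by_cases hG1 : Complex.Gamma z = 0
    · exact Or.inr hG1
    left
    show G z = 0
    have h1 : eval (pt2 a b z) P = 0 := hz0
    rw [eval_left, ← hQ, Polynomial.eval_map, Polynomial.eval₂_eq_sum_range, ← hd] at h1
    have h6 := clear_den d (fun k => H k z) _ hG1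
    have h7 : G z * (Complex.Gamma z) ^ d =
      ∑ l ∈ Finset.range (d + 1), H l z * Complex.Gamma z ^ l := h6
    have h3 : G z * (Complex.Gamma z) ^ d * ∏ i, Complex.Gamma (a i * z + b i) ^ N = 0 := by
      rw [h7, Finset.sum_mul, ← h1]
      refine Finset.sum_congr rfl fun k hk => ?_
      have hk' : k ≤ d := by have := Finset.mem_range.1 hk; omega
      rw [key k hk' z hG]
      ring
    rcases mul_eq_zero.1 h3 with h4 | h4
    · rcases mul_eq_zero.1 h4 with h4 | h4
      · exact h4
      · exact absurd h4 (pow_ne_zero _ hG1)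
    · exact absurd h4 (Finset.prod_ne_zero_iff.2 fun i _ => pow_ne_zero _ (hG i))
  · right
    push Not at hG
    obtain ⟨i, hi⟩ := hG
    exact Set.mem_iUnion.2 ⟨i, hi⟩

theorem pole_over (F : Type) [Field F] [Algebra F ℂ] [Countable F] {n r : ℕ} (a b : Fin n → ℂ)
    (i : Fin n) (e : Fin r → Fin n) (hi : a i ≠ 0)
    (hre : LinearIndependent ℚ fun k => (a (e k) / a i).re)
    (him : ∀ k, (a (e k) / a i).im ≠ 0) :
    {t : ℂ | Algebra.trdeg F (fld F fun k => a k * t + b k) < r + 2}.Countable := by
  classical
  let a' : Fin r → ℂ := fun k => a (e k) / a i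
  let b' : Fin r → ℂ := fun k => b (e k) - a (e k) / a i * b i
  have ha' : ∀ k, a' k ≠ 0 := by
    intro k h
    apply him k
    have : a (e k) / a i = 0 := h
    rw [this]; rfl
  have hre' : LinearIndependent ℚ fun k => (a' k * (-1)).re := by
    have h1 : (fun k => (a' k * (-1)).re) = fun k => -((a (e k) / a i).re) := by
      funext k; simp [a']
    rw [h1]
    rw [Fintype.linearIndependent_iff] at hre ⊢
    intro g hg k
    refine hre g ?_ k
    have h2 : ∑ k, g k • -(a (e k) / a i).re = -∑ k, g k • (a (e k) / a i).re := by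
      rw [← Finset.sum_neg_distrib]
      refine Finset.sum_congr rfl fun k _ => ?_
      rw [smul_neg]
    rw [h2] at hg
    exact neg_eq_zero.1 hg
  have him' : ∀ k, (a' k * (-1)).im ≠ 0 := by
    intro k h
    apply him k
    simpa [a'] using h
  have hc := dep_over F (pt2 a' b') (pole_zeros a' b' ha' hre' him')
  have hpre : {t : ℂ | ¬ AlgebraicIndependent F (pt2 a' b' (a i * t + b i))}.Countable := by
    refine Set.Countable.preimage_of_injOn (f := fun t => a i * t + b i)
      (s := {s : ℂ | ¬ AlgebraicIndependent F (pt2 a' b' s)}) hc ?_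
    intro x _ y _ hxy
    have : a i * x = a i * y := by simpa using hxy
    exact mul_left_cancel₀ hi this
  refine hpre.mono ?_
  intro t ht hind
  have hmem : ∀ o, pt2 a' b' (a i * t + b i) o ∈ fld F fun k => a k * t + b k := by
    intro o
    rcases o with _ | o
    · exact IntermediateField.subset_adjoin _ _ (Or.inr ⟨i, rfl⟩)
    rcases o with _ | k
    · exact IntermediateField.subset_adjoin _ _ (Or.inl ⟨i, rfl⟩)
    · have : pt2 a' b' (a i * t + b i) (some (some k)) =
          Complex.Gamma (a (e k) * t + b (e k)) := by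
        show Complex.Gamma (a (e k) / a i * (a i * t + b i) + (b (e k) - a (e k) / a i * b i)) = _
        congr 1
        field_simp
        ring
      rw [this]
      exact IntermediateField.subset_adjoin _ _ (Or.inr ⟨e k, rfl⟩)
  let x' : Option (Option (Fin r)) → fld F fun k => a k * t + b k := fun o => ⟨_, hmem o⟩
  have hx' : AlgebraicIndependent F x' :=
    (AlgHom.algebraicIndependent_iff (fld F fun k => a k * t + b k).val
      Subtype.val_injective).1 hind
  have h3 := hx'.cardinalMk_le_trdeg
  rw [Cardinal.mk_option, Cardinal.mk_option, Cardinal.mk_fin, add_assoc, one_add_one_eq_two] at h3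
  have ht' : Algebra.trdeg F (fld F fun k => a k * t + b k) < r + 2 := ht
  exact absurd h3 (not_le.2 ht')

end Pool.Agent.H731R3.GA
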