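import Pool.Agent.H731R3.GA.Grow2

set_option autoImplicit false

namespace Pool.Agent.H731R3.GA

open Filter Topology Complex

lemma norm_Gamma_le_re (z : ℂ) (hz : 0 < z.re) : ‖Complex.Gamma z‖ ≤ Real.Gamma z.re := by
  rw [Complex.Gamma_eq_integral hz, Complex.GammaIntegral, Real.Gamma_eq_integral hz]
  refine (MeasureTheory.norm_integral_le_integral_norm _).trans (le_of_eq ?_)
  refine MeasureTheory.setIntegral_congr_fun measurableSet_Ioi fun x hx => ?_
  have hx' : (0 : ℝ) < x := hx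
  rw [norm_mul, Complex.norm_cpow_eq_rpow_re_of_pos hx', Complex.norm_real, Real.norm_eq_abs,
    abs_of_pos (Real.exp_pos _)]
  simp

lemma up_bd (γ α : ℂ) (hα : 0 < α.re) : ∃ C : ℝ, ∀ᶠ m : ℕ in atTop,
    Real.log ‖Complex.Gamma (γ + α * m)‖ ≤ α.re * (m * Real.log m) + C * m := by
  set ρ := α.re with hρ
  set L : ℝ := ρ + ‖γ‖ + 1 with hL
  have hL1 : 1 ≤ L := by have := norm_nonneg γ; linarith
  refine ⟨‖γ‖ + 1 + L * Real.log L, ?_⟩
  filter_upwards [eventually_ge_atTop ⌈(2 + ‖γ‖) / ρ⌉₊, eventually_ge_atTop 1] with m hm hm1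
  have hm2 : (2 + ‖γ‖) / ρ ≤ m := Nat.ceil_le.1 hm
  rw [div_le_iff₀ hα] at hm2
  have hm1' : (1 : ℝ) ≤ m := by exact_mod_cast hm1
  set w : ℂ := γ + α * m with hw
  have hwre : w.re = γ.re + ρ * m := by simp [hw, hρ]
  have hγre : -‖γ‖ ≤ γ.re := (abs_le.1 (Complex.abs_re_le_norm γ)).1
  have hγre' : γ.re ≤ ‖γ‖ := (abs_le.1 (Complex.abs_re_le_norm γ)).2
  have hx2 : 2 ≤ w.re := by rw [hwre]; nlinarith
  set N : ℕ := ⌈w.re⌉₊ with hN
  have hN1 : w.re ≤ N := Nat.le_ceil _
  have hN2 : (N : ℝ) < w.re + 1 := Nat.ceil_lt_add_one (by linarith)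
  have h1 : Real.Gamma w.re ≤ Real.Gamma (N + 1) :=
    Real.Gamma_strictMonoOn_Ici.monotoneOn (by simpa using hx2)
      (by simp only [Set.mem_Ici]; linarith) (by linarith)
  rw [Real.Gamma_nat_eq_factorial] at h1
  have hNm : (N : ℝ) ≤ L * m := by
    rw [hL, add_mul, add_mul]
    rw [hwre] at hN2
    have hg := norm_nonneg γ
    nlinarith
  have hNρ : (N : ℝ) ≤ ρ * m + (‖γ‖ + 1) := by
    rw [hwre] at hN2; linarith
  have hGne : 0 < ‖Complex.Gamma w‖ :=
    norm_pos_iff.2 (Complex.Gamma_ne_zero_of_re_pos (by linarith))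
  have hfac : (N.factorial : ℝ) ≤ (N : ℝ) ^ N := by exact_mod_cast Nat.factorial_le_pow N
  have hNpos : (0 : ℝ) < N := by linarith
  have h2 : Real.log ‖Complex.Gamma w‖ ≤ N * Real.log N := by
    rw [← Real.log_pow]
    exact Real.log_le_log hGne (((norm_Gamma_le_re w (by linarith)).trans h1).trans hfac)
  have hlm : 0 ≤ Real.log m := Real.log_nonneg hm1'
  have hlL : 0 ≤ Real.log L := Real.log_nonneg hL1
  have h3 : Real.log N ≤ Real.log L + Real.log m := by
    rw [← Real.log_mul (by linarith) (by linarith)]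
    exact Real.log_le_log hNpos hNm
  have hlm2 : Real.log m ≤ m := (Real.log_le_sub_one_of_pos (by linarith)).trans (by linarith)
  have h4 : (N : ℝ) * Real.log N ≤ N * Real.log L + N * Real.log m := by
    rw [← mul_add]; gcongr
  have h5 : (N : ℝ) * Real.log L ≤ L * m * Real.log L := by gcongr
  have h6 : (N : ℝ) * Real.log m ≤ (ρ * m + (‖γ‖ + 1)) * Real.log m := by gcongr
  have h7 : (‖γ‖ + 1) * Real.log m ≤ (‖γ‖ + 1) * m := by gcongr
  nlinarith

lemma lo_bd (γ α : ℂ) (hα : 0 < α.re) : ∃ C : ℝ, ∀ᶠ m : ℕ in atTop,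
    Complex.Gamma (γ + α * m) ≠ 0 ∧
    α.re * (m * Real.log m) - C * m ≤ Real.log ‖Complex.Gamma (γ + α * m)‖ := by
  obtain ⟨C, hC, hstrip⟩ := strip_lower
  set ρ := α.re with hρ
  set D : ℝ := 4 + ‖γ‖ with hD
  have hg := norm_nonneg γ
  set L : ℝ := ρ + ‖γ‖ with hL
  refine ⟨D + L * |Real.log (ρ / 2)| + L + |Real.log 2| + |Real.log C| + 4 * ‖γ‖ + 4 * ‖α‖, ?_⟩
  filter_upwards [eventually_ge_atTop ⌈(2 * D + 2) / ρ⌉₊, eventually_ge_atTop 1] with m hm hm0
  have hm1 : (2 * D + 2) / ρ ≤ m := Nat.ceil_le.1 hm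
  rw [div_le_iff₀ hα] at hm1
  have hm1' : (1 : ℝ) ≤ m := by exact_mod_cast hm0
  set w : ℂ := γ + α * m with hw
  have hwre : w.re = γ.re + ρ * m := by
    simp [hw, hρ]
  have hwim : |w.im| ≤ ‖γ‖ + ‖α‖ * m := by
    have : w.im = γ.im + α.im * m := by simp [hw]
    rw [this]
    refine (abs_add_le _ _).trans ?_
    rw [abs_mul, Nat.abs_cast]
    gcongr
    · exact Complex.abs_im_le_norm γ
    · exact Complex.abs_im_le_norm α
  have hγre : -‖γ‖ ≤ γ.re := (abs_le.1 (Complex.abs_re_le_norm γ)).1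
  have hγre' : γ.re ≤ ‖γ‖ := (abs_le.1 (Complex.abs_re_le_norm γ)).2
  set k := ⌊w.re - 3 / 2⌋₊ with hk
  have hwpos : (2 : ℝ) ≤ w.re - 3 / 2 := by rw [hwre]; nlinarith
  have hk1 : (k : ℝ) ≤ w.re - 3 / 2 := Nat.floor_le (by linarith)
  have hk2 : w.re - 3 / 2 < k + 1 := Nat.lt_floor_add_one _
  set z : ℂ := w - ((k + 1 : ℕ) : ℂ) with hz
  have hzre : z.re = w.re - (k + 1) := by simp [hz]
  have hzim : z.im = w.im := by simp [hz]
  have hs := hstrip z (by rw [hzre]; linarith) (by rw [hzre]; linarith)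
  have hsh := shift_lower z (by rw [hzre]; linarith) k
  have hzw : z + ((k + 1 : ℕ) : ℂ) = w := by rw [hz]; ring
  rw [hzw] at hsh
  have hGz : Complex.Gamma z ≠ 0 := Complex.Gamma_ne_zero_of_re_pos (by rw [hzre]; linarith)
  have hGzn : 0 < ‖Complex.Gamma z‖ := norm_pos_iff.2 hGz
  rw [norm_inv, inv_le_comm₀ hGzn (by positivity)] at hs
  have hkpos : (0 : ℝ) < k := by linarith
  have hkfp : (0 : ℝ) < (k.factorial : ℝ) := by exact_mod_cast k.factorial_pos
  have hstir : k * Real.log k - k ≤ Real.log (k.factorial : ℝ) := by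
    have h1 := Real.pow_div_factorial_le_exp (k : ℝ) hkpos.le k
    rw [div_le_iff₀ hkfp] at h1
    have h2 := Real.log_le_log (by positivity) h1
    rw [Real.log_pow, Real.log_mul (Real.exp_pos _).ne' hkfp.ne', Real.log_exp] at h2
    linarith
  rw [hzim] at hs
  have hlow : (k.factorial : ℝ) / 2 * (C * Real.exp (4 * |w.im|))⁻¹ ≤ ‖Complex.Gamma w‖ := by
    refine le_trans ?_ hsh
    gcongr
  have hpos : 0 < (k.factorial : ℝ) / 2 * (C * Real.exp (4 * |w.im|))⁻¹ := by positivity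
  refine ⟨norm_pos_iff.1 (hpos.trans_le hlow), ?_⟩
  have hlog := Real.log_le_log hpos hlow
  rw [Real.log_mul (by positivity) (by positivity), Real.log_div hkfp.ne' (by norm_num),
    Real.log_inv, Real.log_mul hC.ne' (Real.exp_pos _).ne', Real.log_exp] at hlog
  -- compare k with m
  have hkm : ρ * m / 2 ≤ k := by
    rw [hwre] at hk2; nlinarith
  have hkm2 : (k : ℝ) ≤ L * m := by
    rw [hwre] at hk1; rw [hL, add_mul]; nlinarith
  have hkm3 : ρ * m - D ≤ k := by
    rw [hwre] at hk2; linarith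
  have hlk : Real.log (ρ / 2) + Real.log m ≤ Real.log k := by
    rw [← Real.log_mul (by positivity) (by linarith)]
    apply Real.log_le_log (by positivity)
    linarith
  have hlm : 0 ≤ Real.log m := Real.log_nonneg hm1'
  have hlm2 : Real.log m ≤ m := (Real.log_le_sub_one_of_pos (by linarith)).trans (by linarith)
  have h4 : (k : ℝ) * (Real.log (ρ / 2) + Real.log m) ≤ k * Real.log k := by gcongr
  have h5 : -(L * m * |Real.log (ρ / 2)|) ≤ (k : ℝ) * Real.log (ρ / 2) := by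
    have h51 : -|Real.log (ρ / 2)| ≤ Real.log (ρ / 2) := neg_abs_le _
    have h52 : (k : ℝ) * |Real.log (ρ / 2)| ≤ L * m * |Real.log (ρ / 2)| := by gcongr
    have h53 := mul_le_mul_of_nonneg_left h51 hkpos.le
    linarith
  have h6 : (ρ * m - D) * Real.log m ≤ k * Real.log m := by gcongr
  have h7 : D * Real.log m ≤ D * m := by gcongr
  have h8 := le_abs_self (Real.log 2)
  have h9 := le_abs_self (Real.log C)
  have h10 : |Real.log 2| ≤ |Real.log 2| * m := le_mul_of_one_le_right (abs_nonneg _) hm1'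
  have h11 : |Real.log C| ≤ |Real.log C| * m := le_mul_of_one_le_right (abs_nonneg _) hm1'
  have h12 : ‖γ‖ ≤ ‖γ‖ * m := le_mul_of_one_le_right hg hm1'
  linarith

lemma sin_bd (x : ℂ) : |x.im| ≤ 2 * ‖Complex.sin x‖ ∧ ‖Complex.sin x‖ ≤ Real.exp |x.im| := by
  have hn1 : ‖Complex.exp (-x * I)‖ = Real.exp x.im := by
    rw [Complex.norm_exp]; simp
  have hn2 : ‖Complex.exp (x * I)‖ = Real.exp (-x.im) := by
    rw [Complex.norm_exp]; simp
  have hid : Complex.exp (-x * I) - Complex.exp (x * I) = 2 * Complex.sin x * (-I) := by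
    rw [Complex.sin]
    linear_combination (Complex.exp (-x * I) - Complex.exp (x * I)) * Complex.I_sq
  have hnorm : ‖Complex.exp (-x * I) - Complex.exp (x * I)‖ = 2 * ‖Complex.sin x‖ := by
    rw [hid, norm_mul, norm_mul, norm_neg, Complex.norm_I, mul_one]; norm_num
  constructor
  · rcases le_total 0 x.im with h | h
    · rw [abs_of_nonneg h, ← hnorm]
      have h1 := norm_sub_norm_le (Complex.exp (-x * I)) (Complex.exp (x * I))
      rw [hn1, hn2] at h1
      have h2 := Real.add_one_le_exp x.im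
      have h3 : Real.exp (-x.im) ≤ 1 := Real.exp_le_one_iff.2 (by linarith)
      linarith
    · rw [abs_of_nonpos h, ← hnorm, norm_sub_rev]
      have h1 := norm_sub_norm_le (Complex.exp (x * I)) (Complex.exp (-x * I))
      rw [hn1, hn2] at h1
      have h2 := Real.add_one_le_exp (-x.im)
      have h3 : Real.exp x.im ≤ 1 := Real.exp_le_one_iff.2 h
      linarith
  · have h1 := norm_sub_le (Complex.exp (-x * I)) (Complex.exp (x * I))
    rw [hnorm, hn1, hn2] at h1
    have h2 : Real.exp x.im ≤ Real.exp |x.im| := Real.exp_le_exp.2 (le_abs_self _)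
    have h3 : Real.exp (-x.im) ≤ Real.exp |x.im| := Real.exp_le_exp.2 (neg_le_abs _)
    linarith

/-- two-sided growth estimate of `Γ` along a ray in a direction off the axes -/
lemma ray_bd (γ α : ℂ) (hre : α.re ≠ 0) (him : α.im ≠ 0) : ∃ C : ℝ, ∀ᶠ m : ℕ in atTop,
    Complex.Gamma (γ + α * m) ≠ 0 ∧
    |Real.log ‖Complex.Gamma (γ + α * m)‖ - α.re * (m * Real.log m)| ≤ C * m := by
  rcases lt_or_gt_of_ne hre with hr | hr
  · -- left half-plane, by reflection
    have hr' : 0 < (-α).re := by simpa using hr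
    obtain ⟨C1, h1⟩ := up_bd (1 - γ) (-α) hr'
    obtain ⟨C2, h2⟩ := lo_bd (1 - γ) (-α) hr'
    refine ⟨|C1| + |C2| + Real.log Real.pi + Real.pi * (‖γ‖ + ‖α‖), ?_⟩
    have hpi := Real.pi_pos
    have hpi3 := Real.pi_gt_three
    have hlpi : 0 ≤ Real.log Real.pi := Real.log_nonneg (by linarith)
    filter_upwards [h1, h2, eventually_ge_atTop ⌈(1 + ‖γ‖) / |α.im|⌉₊, eventually_ge_atTop 1]
      with m h3 h4 h5 h6
    have hai : 0 < |α.im| := abs_pos.2 him
    have h5' : (1 + ‖γ‖) / |α.im| ≤ m := Nat.ceil_le.1 h5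
    rw [div_le_iff₀ hai] at h5'
    have hm1' : (1 : ℝ) ≤ m := by exact_mod_cast h6
    set w : ℂ := γ + α * m with hw
    have h1w : 1 - γ + -α * (m : ℂ) = 1 - w := by rw [hw]; ring
    rw [h1w] at h3 h4
    obtain ⟨hne, h4⟩ := h4
    have hwim : w.im = γ.im + α.im * m := by simp [hw]
    have hwim_up : |w.im| ≤ ‖γ‖ + ‖α‖ * m := by
      rw [hwim]
      refine (abs_add_le _ _).trans ?_
      rw [abs_mul, Nat.abs_cast]
      gcongr
      · exact Complex.abs_im_le_norm γ
      · exact Complex.abs_im_le_norm α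
    have hwim_lo : 1 ≤ |w.im| := by
      rw [hwim]
      have h7 := abs_sub_abs_le_abs_sub (α.im * m) (-γ.im)
      rw [abs_neg, sub_neg_eq_add, abs_mul, Nat.abs_cast, add_comm (α.im * (m : ℝ))] at h7
      have h8 := Complex.abs_im_le_norm γ
      nlinarith
    obtain ⟨hs1, hs2⟩ := sin_bd (Real.pi * w)
    have hpim : ((Real.pi : ℂ) * w).im = Real.pi * w.im := by simp
    rw [hpim, abs_mul, abs_of_pos hpi] at hs1 hs2
    have hsge : 1 ≤ ‖Complex.sin (Real.pi * w)‖ := by nlinarith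
    have hsne : Complex.sin (Real.pi * w) ≠ 0 := by
      intro h0; rw [h0, norm_zero] at hsge; linarith
    have hpic : (Real.pi : ℂ) ≠ 0 := by exact_mod_cast hpi.ne'
    have hrefl := Complex.Gamma_mul_Gamma_one_sub w
    have hne2 : Complex.Gamma w * Complex.Gamma (1 - w) ≠ 0 := by
      rw [hrefl]; exact div_ne_zero hpic hsne
    have hG : Complex.Gamma w ≠ 0 := left_ne_zero_of_mul hne2
    refine ⟨hG, ?_⟩
    have hlog : Real.log ‖Complex.Gamma w‖ = Real.log Real.pi -
        Real.log ‖Complex.sin (Real.pi * w)‖ - Real.log ‖Complex.Gamma (1 - w)‖ := by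
      have h7 := congrArg (fun t : ℂ => Real.log ‖t‖) hrefl
      simp only [norm_mul, norm_div] at h7
      rw [Real.log_mul (norm_ne_zero_iff.2 hG) (norm_ne_zero_iff.2 hne),
        Real.log_div (norm_ne_zero_iff.2 hpic) (norm_ne_zero_iff.2 hsne), Complex.norm_real,
        Real.norm_eq_abs, abs_of_pos hpi] at h7
      linarith
    have hls1 : 0 ≤ Real.log ‖Complex.sin (Real.pi * w)‖ := Real.log_nonneg hsge
    have hls2 : Real.log ‖Complex.sin (Real.pi * w)‖ ≤ Real.pi * |w.im| := by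
      have := Real.log_le_log (by linarith) hs2
      rwa [Real.log_exp] at this
    have hreneg : (-α).re = -α.re := by simp
    rw [hreneg] at h3 h4
    have h8 : C1 * m ≤ |C1| * m := by gcongr; exact le_abs_self _
    have h9 : C2 * m ≤ |C2| * m := by gcongr; exact le_abs_self _
    have h10 : Real.log Real.pi ≤ Real.log Real.pi * m := le_mul_of_one_le_right hlpi hm1'
    have h11 : ‖γ‖ ≤ ‖γ‖ * m := le_mul_of_one_le_right (norm_nonneg _) hm1'
    have h12 : Real.pi * |w.im| ≤ Real.pi * (‖γ‖ + ‖α‖) * m := by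
      have : Real.pi * |w.im| ≤ Real.pi * (‖γ‖ + ‖α‖ * m) := by gcongr
      nlinarith
    have h13 : 0 ≤ |C1| * m := by positivity
    have h14 : 0 ≤ |C2| * m := by positivity
    have h15 : 0 ≤ Real.pi * (‖γ‖ + ‖α‖) * m := by positivity
    rw [abs_le]
    constructor
    · rw [hlog]; nlinarith
    · rw [hlog]; nlinarith
  · obtain ⟨C1, h1⟩ := up_bd γ α hr
    obtain ⟨C2, h2⟩ := lo_bd γ α hr
    refine ⟨|C1| + |C2|, ?_⟩
    filter_upwards [h1, h2] with m h3 h4
    refine ⟨h4.1, ?_⟩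
    have h4 := h4.2
    have hm : (0 : ℝ) ≤ m := Nat.cast_nonneg m
    have h8 : C1 * m ≤ |C1| * m := by gcongr; exact le_abs_self _
    have h9 : C2 * m ≤ |C2| * m := by gcongr; exact le_abs_self _
    have h13 : 0 ≤ |C1| * m := by positivity
    have h14 : 0 ≤ |C2| * m := by positivity
    rw [abs_le]
    constructor <;> nlinarith

end Pool.Agent.H731R3.GA
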